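import Mathlib
import Pool.Agent.Results.MP_12a1af_nt.AffineSystems

/-!
# MP_491344_nt: the exact thresholds for sets given by finite systems of affine equations

`rep A n` is the number of ordered pairs of elements of `A` with sum `n`. A set `A` is *affine*
(`Affine`) if it is a finite union of sets `B i` which solve a finite system
`B i = F i ∪ ⋃ (q B_j + d)` (the union over finitely many edges `(i, j, q, d)`, `F i` finite) with
multipliers `q ≥ 2`, which may all be different. It is *automatic in base `b`* (`Automatic b`) if all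
multipliers are equal to `b` and `0 ≤ d < b`.

1. If an affine set `A` has for every `k` more than `k (log N) ^ k` elements up to some arbitrarily
   large `N`, then `rep A n ≥ n ^ c` for infinitely many `n`, for some `c > 0`.
2. For all `k ≥ 1` and `b ≥ 3` there is a set `A`, automatic in base `b`, with `rep A n ≤ 4 ^ k` for
   all `n` and `|A ∩ [1, N]| ≥ c (log N) ^ k` for all large `N`.
3. Hence for every function `g` and every `b ≥ 3` the following are equivalent: `g` forces unbounded
   representations inside the class of all affine sets; `g` forces unbounded representations inside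
   the class of the automatic sets in base `b`; `√N / g(N)` is not `O ((log N) ^ k)`, for all `k`.

So in this model the functions which force unbounded representations are determined exactly (for the
class of all sets this is the question of Erdős mentioned in the problem), and there the threshold is
at `g(N) = √N / (log N) ^ O(1)`.

Part 1 rests on the dichotomy of the starting file `MP_12a1af_nt.AffineSystems`.
-/

set_option autoImplicit false

namespace Pool.Agent.Results.MP_491344_nt.AffineThreshold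

open Finset Filter Pool.Agent.Results.MP_12a1af_nt.AffineSystems

/-- `|A ∩ [1, N]| ≫ √N / g(N)` -/
def Dense (g : ℕ → ℝ) (A : Set ℕ) : Prop :=
  ∃ C : ℝ, 0 < C ∧ ∀ᶠ N : ℕ in atTop, Real.sqrt N / g N ≤ C * ((A ∩ Set.Icc 1 N).ncard : ℝ)

/-- `A` is a finite union of components of a solution of a finite affine system, all of whose edges
`(q, d)` have the property `P` -/
def SolvedBy (P : ℕ → ℤ → Prop) (A : Set ℕ) : Prop :=
  ∃ (m : ℕ) (E : Finset (Fin m × Fin m × ℕ × ℤ)) (F : Fin m → Finset ℕ) (B : Fin m → Set ℕ)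
    (I : Set (Fin m)), (∀ i j q d, (i, j, q, d) ∈ E → P q d) ∧ IsSolution E F B ∧
    A = ⋃ i ∈ I, B i

/-- all multipliers are at least two -/
def Affine (A : Set ℕ) : Prop := SolvedBy (fun q _ => 2 ≤ q) A

/-- all multipliers are equal to `b`, and the translations are the digits in base `b` -/
def Automatic (b : ℕ) (A : Set ℕ) : Prop := SolvedBy (fun q d => q = b ∧ 0 ≤ d ∧ d < b) A

/-- `g` forces unbounded representations inside the class `𝒞` -/
def ForcesIn (𝒞 : Set ℕ → Prop) (g : ℕ → ℝ) : Prop :=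
  ∀ A : Set ℕ, 𝒞 A → Dense g A → ∀ K : ℕ, ∃ n, K < rep A n

/-- sums of at most `k` different powers of `b` -/
def T (b k : ℕ) : Set ℕ := {x | ∃ s : Finset ℕ, s.card ≤ k ∧ x = ∑ i ∈ s, b ^ i}

lemma zero_mem_T (b k : ℕ) : 0 ∈ T b k := ⟨∅, by simp, by simp⟩

lemma shift_sum (b : ℕ) (s : Finset ℕ) : ∑ i ∈ s.image Nat.succ, b ^ i = b * ∑ i ∈ s, b ^ i := by
  rw [Finset.sum_image (fun a _ c _ h => Nat.succ_injective h), Finset.mul_sum]
  refine Finset.sum_congr rfl fun i _ => ?_
  rw [Nat.succ_eq_add_one, pow_succ, mul_comm]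

lemma T_mul {b k y : ℕ} (hy : y ∈ T b k) : b * y ∈ T b k := by
  obtain ⟨s, hs, rfl⟩ := hy
  exact ⟨s.image Nat.succ, Finset.card_image_le.trans hs, (shift_sum b s).symm⟩

lemma T_mul_add {b k y : ℕ} (hy : y ∈ T b k) : b * y + 1 ∈ T b (k + 1) := by
  obtain ⟨s, hs, rfl⟩ := hy
  refine ⟨insert 0 (s.image Nat.succ), (Finset.card_insert_le _ _).trans
    (Nat.succ_le_succ (Finset.card_image_le.trans hs)), ?_⟩
  rw [Finset.sum_insert (by simp), shift_sum, pow_zero, add_comm]

lemma image_succ_pred {s : Finset ℕ} (h : 0 ∉ s) : (s.image Nat.pred).image Nat.succ = s := by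
  rw [Finset.image_image]
  have : ∀ x ∈ s, (Nat.succ ∘ Nat.pred) x = x := by
    intro x hx
    have : x ≠ 0 := fun h0 => h (h0 ▸ hx)
    exact Nat.succ_pred this
  rw [Finset.image_congr (g := id) (fun x hx => this x hx), Finset.image_id]

lemma T_cases {b k x : ℕ} (hx : x ∈ T b k) :
    (∃ y ∈ T b k, x = b * y) ∨ ∃ k', k = k' + 1 ∧ ∃ y ∈ T b k', x = b * y + 1 := by
  obtain ⟨s, hs, rfl⟩ := hx
  by_cases h0 : 0 ∈ s
  · right
    have hc : 0 < s.card := Finset.card_pos.2 ⟨0, h0⟩
    obtain ⟨k', rfl⟩ : ∃ k', k = k' + 1 := ⟨k - 1, by omega⟩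
    refine ⟨k', rfl, ∑ i ∈ (s.erase 0).image Nat.pred, b ^ i,
      ⟨(s.erase 0).image Nat.pred, ?_, rfl⟩, ?_⟩
    · refine Finset.card_image_le.trans ?_
      rw [Finset.card_erase_of_mem h0]
      omega
    · rw [← shift_sum, image_succ_pred (Finset.notMem_erase 0 s), ← Finset.add_sum_erase s _ h0,
        pow_zero, add_comm]
  · left
    refine ⟨∑ i ∈ s.image Nat.pred, b ^ i, ⟨s.image Nat.pred, Finset.card_image_le.trans hs, rfl⟩, ?_⟩
    rw [← shift_sum, image_succ_pred h0]

/-- pairs with given sum -/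
def S (b j k n : ℕ) : Set (ℕ × ℕ) := {p | p.1 ∈ T b j ∧ p.2 ∈ T b k ∧ p.1 + p.2 = n}

lemma S_finite (b j k n : ℕ) : (S b j k n).Finite := by
  apply Set.Finite.subset (Finset.finite_toSet
    (Finset.range (n + 1) ×ˢ Finset.range (n + 1)))
  rintro p ⟨_, _, hp⟩
  rw [Finset.mem_coe, Finset.mem_product, Finset.mem_range, Finset.mem_range]
  omega

lemma S_bound {b : ℕ} (hb : 3 ≤ b) : ∀ n j k : ℕ, (S b j k n).ncard ≤ 2 ^ (j + k) := by
  intro n
  induction n using Nat.strong_induction_on with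
  | _ n ih =>
    intro j k
    rcases Nat.eq_zero_or_pos n with rfl | hn
    · have h : S b j k 0 ⊆ {((0 : ℕ), (0 : ℕ))} := by
        rintro ⟨x, y⟩ ⟨_, _, h⟩
        simp only at h
        rw [Set.mem_singleton_iff, Prod.mk.injEq]
        omega
      refine (Set.ncard_le_ncard h (Set.finite_singleton _)).trans ?_
      rw [Set.ncard_singleton]
      exact Nat.one_le_two_pow
    · have hm : n / b < n := Nat.div_lt_self hn (by omega)
      have hdm := Nat.div_add_mod n b
      have hlt := Nat.mod_lt n (by omega : b > 0)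
      set m := n / b with hmdef
      set r := n % b with hrdef
      -- the decomposition
      have key : ∀ x' y' ε δ : ℕ, ε ≤ 1 → δ ≤ 1 → (b * x' + ε) + (b * y' + δ) = n →
          x' + y' = m ∧ ε + δ = r := by
        intro x' y' ε δ hε hδ h
        have h1 : n = b * (x' + y') + (ε + δ) := by rw [← h]; ring
        have h2 : ε + δ < b := by omega
        constructor
        · rw [hmdef, h1, Nat.mul_add_div (by omega), Nat.div_eq_of_lt h2, add_zero]
        · rw [hrdef, h1, Nat.mul_add_mod, Nat.mod_eq_of_lt h2]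
      rcases Nat.lt_trichotomy r 1 with hr | hr | hr
      · -- `r = 0`
        have h : S b j k n ⊆ (fun p : ℕ × ℕ => (b * p.1, b * p.2)) '' S b j k m := by
          rintro ⟨x, y⟩ ⟨hx, hy, h⟩
          simp only at hx hy h
          rcases T_cases hx with ⟨x', hx', rfl⟩ | ⟨j', rfl, x', hx', rfl⟩ <;>
            rcases T_cases hy with ⟨y', hy', rfl⟩ | ⟨k', rfl, y', hy', rfl⟩
          · obtain ⟨h1, -⟩ := key x' y' 0 0 (by omega) (by omega) (by simpa using h)
            exact ⟨(x', y'), ⟨hx', hy', h1⟩, rfl⟩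
          · obtain ⟨-, h1⟩ := key x' y' 0 1 (by omega) (by omega) (by simpa using h)
            omega
          · obtain ⟨-, h1⟩ := key x' y' 1 0 (by omega) (by omega) (by simpa using h)
            omega
          · obtain ⟨-, h1⟩ := key x' y' 1 1 (by omega) (by omega) (by simpa using h)
            omega
        refine (Set.ncard_le_ncard h ((S_finite _ _ _ _).image _)).trans ?_
        exact (Set.ncard_image_le (S_finite _ _ _ _)).trans (ih m hm j k)
      · -- `r = 1`
        have h : S b j k n ⊆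
            ((fun p : ℕ × ℕ => (b * p.1, b * p.2 + 1)) '' (if k = 0 then ∅ else S b j (k - 1) m)) ∪
            ((fun p : ℕ × ℕ => (b * p.1 + 1, b * p.2)) '' (if j = 0 then ∅ else S b (j - 1) k m)) := by
          rintro ⟨x, y⟩ ⟨hx, hy, h⟩
          simp only at hx hy h
          rcases T_cases hx with ⟨x', hx', rfl⟩ | ⟨j', rfl, x', hx', rfl⟩ <;>
            rcases T_cases hy with ⟨y', hy', rfl⟩ | ⟨k', rfl, y', hy', rfl⟩
          · obtain ⟨-, h1⟩ := key x' y' 0 0 (by omega) (by omega) (by simpa using h)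
            omega
          · obtain ⟨h1, -⟩ := key x' y' 0 1 (by omega) (by omega) (by simpa using h)
            left
            rw [if_neg (by omega), Nat.add_sub_cancel]
            exact ⟨(x', y'), ⟨hx', hy', h1⟩, rfl⟩
          · obtain ⟨h1, -⟩ := key x' y' 1 0 (by omega) (by omega) (by simpa using h)
            right
            rw [if_neg (by omega), Nat.add_sub_cancel]
            exact ⟨(x', y'), ⟨hx', hy', h1⟩, rfl⟩
          · obtain ⟨-, h1⟩ := key x' y' 1 1 (by omega) (by omega) (by simpa using h)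
            omega
        have hf1 : (if k = 0 then (∅ : Set (ℕ × ℕ)) else S b j (k - 1) m).Finite := by
          split_ifs
          · exact Set.finite_empty
          · exact S_finite _ _ _ _
        have hf2 : (if j = 0 then (∅ : Set (ℕ × ℕ)) else S b (j - 1) k m).Finite := by
          split_ifs
          · exact Set.finite_empty
          · exact S_finite _ _ _ _
        refine (Set.ncard_le_ncard h ((hf1.image _).union (hf2.image _))).trans ?_
        refine (Set.ncard_union_le _ _).trans ?_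
        have h1 : ((fun p : ℕ × ℕ => (b * p.1, b * p.2 + 1)) ''
            (if k = 0 then ∅ else S b j (k - 1) m)).ncard * 2 ≤ 2 ^ (j + k) := by
          refine (Nat.mul_le_mul_right 2 (Set.ncard_image_le hf1)).trans ?_
          split_ifs with hk
          · simp
          · have h2 := ih m hm j (k - 1)
            have h3 : j + k = j + (k - 1) + 1 := by omega
            rw [h3, pow_succ]
            exact Nat.mul_le_mul_right 2 h2
        have h2 : ((fun p : ℕ × ℕ => (b * p.1 + 1, b * p.2)) ''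
            (if j = 0 then ∅ else S b (j - 1) k m)).ncard * 2 ≤ 2 ^ (j + k) := by
          refine (Nat.mul_le_mul_right 2 (Set.ncard_image_le hf2)).trans ?_
          split_ifs with hj
          · simp
          · have h2 := ih m hm (j - 1) k
            have h3 : j + k = j - 1 + k + 1 := by omega
            rw [h3, pow_succ]
            exact Nat.mul_le_mul_right 2 h2
        omega
      · -- `r ≥ 2`
        have h : S b j k n ⊆
            (fun p : ℕ × ℕ => (b * p.1 + 1, b * p.2 + 1)) '' S b (j - 1) (k - 1) m := by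
          rintro ⟨x, y⟩ ⟨hx, hy, h⟩
          simp only at hx hy h
          rcases T_cases hx with ⟨x', hx', rfl⟩ | ⟨j', rfl, x', hx', rfl⟩ <;>
            rcases T_cases hy with ⟨y', hy', rfl⟩ | ⟨k', rfl, y', hy', rfl⟩
          · obtain ⟨-, h1⟩ := key x' y' 0 0 (by omega) (by omega) (by simpa using h)
            omega
          · obtain ⟨-, h1⟩ := key x' y' 0 1 (by omega) (by omega) (by simpa using h)
            omega
          · obtain ⟨-, h1⟩ := key x' y' 1 0 (by omega) (by omega) (by simpa using h)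
            omega
          · obtain ⟨h1, -⟩ := key x' y' 1 1 (by omega) (by omega) (by simpa using h)
            exact ⟨(x', y'), ⟨by simpa using hx', by simpa using hy', h1⟩, rfl⟩
        refine (Set.ncard_le_ncard h ((S_finite _ _ _ _).image _)).trans ?_
        refine (Set.ncard_image_le (S_finite _ _ _ _)).trans ((ih m hm _ _).trans ?_)
        exact Nat.pow_le_pow_right (by norm_num) (by omega)

lemma rep_T {b : ℕ} (hb : 3 ≤ b) (k n : ℕ) : rep (T b k) n ≤ 4 ^ k := by
  have h := S_bound hb n k k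
  rw [← two_mul, pow_mul] at h
  exact h

lemma automatic_T {b : ℕ} (hb : 3 ≤ b) (k : ℕ) : Automatic b (T b k) := by
  refine ⟨k + 1, (univ.image fun j : Fin (k + 1) => (j, j, b, (0 : ℤ))) ∪
    (univ.image fun j : Fin k => (j.succ, j.castSucc, b, (1 : ℤ))), fun _ => {0},
    fun j => T b j, {Fin.last k}, ?_, ⟨?_, ?_, ?_⟩, ?_⟩
  · intro i j q d h
    rw [Finset.mem_union, Finset.mem_image, Finset.mem_image] at h
    rcases h with ⟨a, -, h⟩ | ⟨a, -, h⟩ <;>
    · simp only [Prod.mk.injEq] at h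
      obtain ⟨-, -, rfl, rfl⟩ := h
      omega
  · intro i x hx
    rw [Finset.mem_singleton] at hx
    subst hx
    exact zero_mem_T b i
  · intro i j q d h y hy
    rw [Finset.mem_union, Finset.mem_image, Finset.mem_image] at h
    rcases h with ⟨a, -, h⟩ | ⟨a, -, h⟩
    · simp only [Prod.mk.injEq] at h
      obtain ⟨rfl, rfl, rfl, rfl⟩ := h
      exact ⟨b * y, T_mul hy, by push_cast; ring⟩
    · simp only [Prod.mk.injEq] at h
      obtain ⟨rfl, rfl, rfl, rfl⟩ := h
      refine ⟨b * y + 1, ?_, by push_cast; ring⟩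
      have h1 : ((a.succ : Fin (k + 1)) : ℕ) = (a.castSucc : ℕ) + 1 := by simp
      show b * y + 1 ∈ T b ((a.succ : Fin (k + 1)) : ℕ)
      rw [h1]
      exact T_mul_add hy
  · intro i x hx
    right
    rcases T_cases hx with ⟨y, hy, rfl⟩ | ⟨k', hk, y, hy, rfl⟩
    · refine ⟨i, b, 0, ?_, y, hy, by push_cast; ring⟩
      rw [Finset.mem_union]
      left
      exact Finset.mem_image.2 ⟨i, Finset.mem_univ _, rfl⟩
    · have hk' : k' < k := by have := i.2; omega
      refine ⟨(⟨k', hk'⟩ : Fin k).castSucc, b, 1, ?_, y, hy, by push_cast; ring⟩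
      rw [Finset.mem_union]
      right
      refine Finset.mem_image.2 ⟨⟨k', hk'⟩, Finset.mem_univ _, ?_⟩
      have : (⟨k', hk'⟩ : Fin k).succ = i := by
        ext
        simp [hk]
      rw [this]
  · ext x
    simp

lemma choose_le_count {b k : ℕ} (hb : 3 ≤ b) (hk : 1 ≤ k) {N : ℕ} (hN : 1 ≤ N) :
    (Nat.log b N).choose k ≤ (T b k ∩ Set.Icc 1 N).ncard := by
  classical
  have hfin : (T b k ∩ Set.Icc 1 N).Finite := (Set.finite_Icc 1 N).subset Set.inter_subset_right
  have h1 : (((powersetCard k (range (Nat.log b N))).image (fun s => ∑ i ∈ s, b ^ i) :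
      Finset ℕ) : Set ℕ) ⊆ T b k ∩ Set.Icc 1 N := by
    intro x hx
    rw [Finset.mem_coe, Finset.mem_image] at hx
    obtain ⟨s, hs, rfl⟩ := hx
    rw [Finset.mem_powersetCard] at hs
    refine ⟨⟨s, hs.2.le, rfl⟩, ?_, ?_⟩
    · obtain ⟨i, hi⟩ := Finset.card_pos.1 (by omega : 0 < s.card)
      exact (Nat.one_le_pow _ _ (by omega)).trans
        (Finset.single_le_sum (f := fun i => b ^ i) (fun _ _ => Nat.zero_le _) hi)
    · have h2 : ∑ i ∈ s, b ^ i < b ^ Nat.log b N :=
        Nat.geomSum_lt (by omega) fun i hi => Finset.mem_range.1 (hs.1 hi)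
      exact h2.le.trans (Nat.pow_log_le_self b (by omega))
  have h2 := Set.ncard_le_ncard h1 hfin
  rw [Set.ncard_coe_finset, Finset.card_image_of_injective _ (Finset.geomSum_injective (by omega)),
    Finset.card_powersetCard, Finset.card_range] at h2
  exact h2

lemma count_T {b k : ℕ} (hb : 3 ≤ b) (hk : 1 ≤ k) :
    ∃ c : ℝ, 0 < c ∧ ∀ᶠ N : ℕ in atTop,
      c * Real.log N ^ k ≤ ((T b k ∩ Set.Icc 1 N).ncard : ℝ) := by
  have hlb : 0 < Real.log b := Real.log_pos (by exact_mod_cast (by omega : 1 < b))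
  refine ⟨1 / ((2 * Real.log b) ^ k * (k.factorial : ℝ)), by positivity, ?_⟩
  have hlog : Tendsto (fun N : ℕ => Real.log N) atTop atTop :=
    Real.tendsto_log_atTop.comp tendsto_natCast_atTop_atTop
  filter_upwards [hlog.eventually_ge_atTop (2 * Real.log b * k), eventually_ge_atTop 1] with N h1 h2
  have hN : (1 : ℝ) ≤ N := by exact_mod_cast h2
  have hlN : 0 ≤ Real.log N := Real.log_nonneg hN
  -- `log N < (L + 1) log b`
  have h3 : Real.log N ≤ ((Nat.log b N : ℝ) + 1) * Real.log b := by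
    have h4 : N < b ^ (Nat.log b N + 1) := Nat.lt_pow_succ_log_self (by omega) N
    have h5 : (N : ℝ) ≤ (b : ℝ) ^ (Nat.log b N + 1) := by exact_mod_cast h4.le
    have h6 := Real.log_le_log (by linarith) h5
    rw [Real.log_pow] at h6
    push_cast at h6
    exact h6
  have h4 : Real.log N / (2 * Real.log b) ≤ ((Nat.log b N + 1 - k : ℕ) : ℝ) := by
    rw [div_le_iff₀ (by positivity)]
    have h5 : (k : ℝ) * (2 * Real.log b) ≤ ((Nat.log b N : ℝ) + 1) * Real.log b := by linarith
    have h6 : (k : ℝ) ≤ ((Nat.log b N : ℝ) + 1) := by nlinarith [Nat.cast_nonneg (α := ℝ) k]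
    have h7 : k ≤ Nat.log b N + 1 := by exact_mod_cast h6
    rw [Nat.cast_sub h7]
    push_cast
    nlinarith
  have h5 : ((Nat.log b N + 1 - k : ℕ) : ℝ) ^ k / (k.factorial : ℝ) ≤
      ((Nat.log b N).choose k : ℝ) := Nat.pow_le_choose k (Nat.log b N)
  have h6 : ((Nat.log b N).choose k : ℝ) ≤ ((T b k ∩ Set.Icc 1 N).ncard : ℝ) := by
    exact_mod_cast choose_le_count hb hk h2
  refine le_trans ?_ (h5.trans h6)
  have h7 : (Real.log N / (2 * Real.log b)) ^ k ≤ ((Nat.log b N + 1 - k : ℕ) : ℝ) ^ k :=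
    pow_le_pow_left₀ (by positivity) h4 k
  have h8 : 1 / ((2 * Real.log b) ^ k * (k.factorial : ℝ)) * Real.log N ^ k =
      (Real.log N / (2 * Real.log b)) ^ k / (k.factorial : ℝ) := by
    rw [div_pow]
    field_simp
  rw [h8]
  exact div_le_div_of_nonneg_right h7 (by positivity)

/-- part 1 -/
lemma affine_growth {A : Set ℕ} (hA : Affine A)
    (h : ∀ k : ℕ, ∃ᶠ N : ℕ in atTop, (k : ℝ) * Real.log N ^ k < ((A ∩ Set.Icc 1 N).ncard : ℝ)) :
    ∃ c : ℝ, 0 < c ∧ ∃ᶠ n : ℕ in atTop, (n : ℝ) ^ c ≤ (rep A n : ℝ) := by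
  classical
  obtain ⟨m, E, F, B, I, hE, hB, rfl⟩ := hA
  by_cases hex : ∃ i ∈ I, ∀ B' : Set ℕ, B i ⊆ B' → ∃ c : ℝ, 0 < c ∧ ∀ N₀ : ℕ, ∃ n : ℕ, N₀ ≤ n ∧
      (n : ℝ) ^ c ≤ (rep B' n : ℝ)
  · obtain ⟨i, hi, hi'⟩ := hex
    obtain ⟨c, hc, hN⟩ := hi' _ (Set.subset_biUnion_of_mem hi)
    exact ⟨c, hc, frequently_atTop.2 fun N₀ => (hN N₀)⟩
  · exfalso
    have h1 : ∀ i ∈ I, ∃ (C : ℝ) (k : ℕ), ∀ N : ℕ,
        ((B i ∩ Set.Iic N).ncard : ℝ) ≤ C * Real.log (N + 2) ^ k := by
      intro i hi
      rcases dichotomy hE hB i with h2 | h2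
      · exact h2
      · exact absurd ⟨i, hi, h2⟩ hex
    choose! C κ hC using h1
    -- the common exponent
    set k₀ : ℕ := ∑ i : Fin m, κ i with hk₀
    obtain ⟨k₁, hk₁⟩ := exists_nat_ge (∑ i : Fin m, |C i| * 2 ^ k₀)
    set k := max k₀ k₁ with hk
    have hlog : Tendsto (fun N : ℕ => Real.log N) atTop atTop :=
      Real.tendsto_log_atTop.comp tendsto_natCast_atTop_atTop
    obtain ⟨N, hN1, hN2, hN3⟩ := ((h k).and_eventually
      ((hlog.eventually_ge_atTop 1).and (eventually_ge_atTop 2))).exists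
    have hNR : (2 : ℝ) ≤ N := by exact_mod_cast hN3
    have hl2 : Real.log (N + 2) ≤ 2 * Real.log N := by
      have : Real.log (N + 2) ≤ Real.log ((N : ℝ) ^ 2) :=
        Real.log_le_log (by linarith) (by nlinarith)
      rw [Real.log_pow] at this
      exact_mod_cast this
    have hl3 : 0 ≤ Real.log ((N : ℝ) + 2) := Real.log_nonneg (by linarith)
    have h6 : (((⋃ i ∈ I, B i) ∩ Set.Icc 1 N).ncard : ℝ) ≤
        ∑ i : Fin m, |C i| * (2 * Real.log N) ^ k₀ := by
      have h7 : (⋃ i ∈ I, B i) ∩ Set.Icc 1 N ⊆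
          ⋃ i ∈ (Finset.univ.filter (· ∈ I)), (B i ∩ Set.Iic N) := by
        rintro x ⟨hx, hxN⟩
        rw [Set.mem_iUnion₂] at hx ⊢
        obtain ⟨i, hi, hx⟩ := hx
        exact ⟨i, Finset.mem_filter.2 ⟨Finset.mem_univ i, hi⟩, hx, hxN.2⟩
      have hfin : ∀ i, (B i ∩ Set.Iic N).Finite := fun i =>
        (Set.finite_Iic N).subset Set.inter_subset_right
      have h8 : ((⋃ i ∈ I, B i) ∩ Set.Icc 1 N).ncard ≤
          ∑ i ∈ Finset.univ.filter (· ∈ I), (B i ∩ Set.Iic N).ncard := by
        refine (Set.ncard_le_ncard h7 ?_).trans (Finset.set_ncard_biUnion_le _ _)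
        exact Set.Finite.biUnion (Finset.finite_toSet _) (fun i _ => hfin i)
      have h9 : ∀ i ∈ I, ((B i ∩ Set.Iic N).ncard : ℝ) ≤ |C i| * (2 * Real.log N) ^ k₀ := by
        intro i hi
        have hki : κ i ≤ k₀ := Finset.single_le_sum (f := κ) (fun _ _ => Nat.zero_le _)
          (Finset.mem_univ i)
        calc ((B i ∩ Set.Iic N).ncard : ℝ) ≤ C i * Real.log (N + 2) ^ κ i := hC i hi N
          _ ≤ |C i| * Real.log (N + 2) ^ κ i :=
              mul_le_mul_of_nonneg_right (le_abs_self _) (by positivity)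
          _ ≤ |C i| * (2 * Real.log N) ^ κ i := by
              refine mul_le_mul_of_nonneg_left (pow_le_pow_left₀ hl3 hl2 _) (abs_nonneg _)
          _ ≤ |C i| * (2 * Real.log N) ^ k₀ :=
              mul_le_mul_of_nonneg_left (pow_le_pow_right₀ (by linarith) hki) (abs_nonneg _)
      calc (((⋃ i ∈ I, B i) ∩ Set.Icc 1 N).ncard : ℝ)
          ≤ ((∑ i ∈ Finset.univ.filter (· ∈ I), (B i ∩ Set.Iic N).ncard : ℕ) : ℝ) := by
            exact_mod_cast h8
        _ = ∑ i ∈ Finset.univ.filter (· ∈ I), ((B i ∩ Set.Iic N).ncard : ℝ) := by push_cast; rfl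
        _ ≤ ∑ i ∈ Finset.univ.filter (· ∈ I), |C i| * (2 * Real.log N) ^ k₀ :=
            Finset.sum_le_sum (fun i hi => h9 i (Finset.mem_filter.1 hi).2)
        _ ≤ ∑ i : Fin m, |C i| * (2 * Real.log N) ^ k₀ := by
            refine Finset.sum_le_sum_of_subset_of_nonneg (Finset.filter_subset _ _) ?_
            intro i _ _
            positivity
    have h10 : ∑ i : Fin m, |C i| * (2 * Real.log N) ^ k₀ ≤ k * Real.log N ^ k := by
      have e : ∑ i : Fin m, |C i| * (2 * Real.log N) ^ k₀ =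
          (∑ i : Fin m, |C i| * 2 ^ k₀) * Real.log N ^ k₀ := by
        rw [Finset.sum_mul]
        refine Finset.sum_congr rfl fun i _ => ?_
        rw [mul_pow]
        ring
      rw [e]
      have h11 : (k₁ : ℝ) ≤ k := by exact_mod_cast le_max_right k₀ k₁
      have h12 : Real.log N ^ k₀ ≤ Real.log N ^ k :=
        pow_le_pow_right₀ hN2 (le_max_left k₀ k₁)
      have h13 : (0 : ℝ) ≤ Real.log N ^ k₀ := by positivity
      calc (∑ i : Fin m, |C i| * 2 ^ k₀) * Real.log N ^ k₀ ≤ k * Real.log N ^ k₀ :=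
            mul_le_mul_of_nonneg_right (hk₁.trans h11) h13
        _ ≤ k * Real.log N ^ k := mul_le_mul_of_nonneg_left h12 (Nat.cast_nonneg _)
    linarith

lemma affine_of_automatic {b : ℕ} (hb : 3 ≤ b) {A : Set ℕ} (h : Automatic b A) : Affine A := by
  obtain ⟨m, E, F, B, I, hE, hB, hA⟩ := h
  refine ⟨m, E, F, B, I, fun i j q d he => ?_, hB, hA⟩
  have := (hE i j q d he).1
  omega

/-- a function above the threshold forces large values -/
lemma forces_strong {g : ℕ → ℝ} (h : ∀ (k : ℕ) (c : ℝ), ∃ᶠ N : ℕ in atTop,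
    c * Real.log N ^ k < Real.sqrt N / g N) {A : Set ℕ} (hA : Affine A) (hd : Dense g A) :
    ∃ c : ℝ, 0 < c ∧ ∃ᶠ n : ℕ in atTop, (n : ℝ) ^ c ≤ (rep A n : ℝ) := by
  obtain ⟨C, hC, hN⟩ := hd
  refine affine_growth hA fun k => ((h k (C * k)).and_eventually hN).mono ?_
  rintro N ⟨h1, h2⟩
  have h3 : C * (k * Real.log N ^ k) < C * ((A ∩ Set.Icc 1 N).ncard : ℝ) := by
    have e : C * k * Real.log N ^ k = C * (k * Real.log N ^ k) := by ring
    rw [← e]
    exact lt_of_lt_of_le h1 h2
  exact lt_of_mul_lt_mul_left h3 hC.le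

lemma unbounded_of_pow {A : Set ℕ} {c : ℝ} (hc : 0 < c)
    (h : ∃ᶠ n : ℕ in atTop, (n : ℝ) ^ c ≤ (rep A n : ℝ)) (K : ℕ) : ∃ n, K < rep A n := by
  have h1 : Tendsto (fun n : ℕ => (n : ℝ) ^ c) atTop atTop :=
    (tendsto_rpow_atTop hc).comp tendsto_natCast_atTop_atTop
  obtain ⟨n, hn, hn2⟩ := (h.and_eventually (h1.eventually_gt_atTop (K : ℝ))).exists
  exact ⟨n, by exact_mod_cast lt_of_lt_of_le hn2 hn⟩

/-- **The exact thresholds for sets given by affine systems.** -/
theorem result :
    -- 1. many elements force large values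
    (∀ A : Set ℕ, Affine A →
      (∀ k : ℕ, ∃ᶠ N : ℕ in atTop, (k : ℝ) * Real.log N ^ k < ((A ∩ Set.Icc 1 N).ncard : ℝ)) →
      ∃ c : ℝ, 0 < c ∧ ∃ᶠ n : ℕ in atTop, (n : ℝ) ^ c ≤ (rep A n : ℝ)) ∧
    -- 2. automatic sets with a bounded representation function
    (∀ b k : ℕ, 3 ≤ b → 1 ≤ k → ∃ A : Set ℕ, Automatic b A ∧ (∀ n, rep A n ≤ 4 ^ k) ∧
      ∃ c : ℝ, 0 < c ∧ ∀ᶠ N : ℕ in atTop,
        c * Real.log N ^ k ≤ ((A ∩ Set.Icc 1 N).ncard : ℝ)) ∧
    -- 3. the functions which force unbounded representations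
    (∀ (g : ℕ → ℝ) (b : ℕ), 3 ≤ b →
      ((ForcesIn Affine g ↔ ∀ (k : ℕ) (c : ℝ), ∃ᶠ N : ℕ in atTop,
          c * Real.log N ^ k < Real.sqrt N / g N) ∧
        (ForcesIn (Automatic b) g ↔ ∀ (k : ℕ) (c : ℝ), ∃ᶠ N : ℕ in atTop,
          c * Real.log N ^ k < Real.sqrt N / g N))) := by
  refine ⟨fun A hA h => affine_growth hA h, ?_, ?_⟩
  · intro b k hb hk
    exact ⟨T b k, automatic_T hb k, fun n => rep_T hb k n, count_T hb hk⟩
  · intro g b hb
    have h1 : (∀ (k : ℕ) (c : ℝ), ∃ᶠ N : ℕ in atTop, c * Real.log N ^ k < Real.sqrt N / g N) →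
        ForcesIn Affine g := by
      intro h A hA hd K
      obtain ⟨c, hc, h2⟩ := forces_strong h hA hd
      exact unbounded_of_pow hc h2 K
    have h2 : ForcesIn Affine g → ForcesIn (Automatic b) g :=
      fun h A hA => h A (affine_of_automatic hb hA)
    have h3 : ForcesIn (Automatic b) g → ∀ (k : ℕ) (c : ℝ), ∃ᶠ N : ℕ in atTop,
        c * Real.log N ^ k < Real.sqrt N / g N := by
      intro h k c
      by_contra hcon
      rw [not_frequently] at hcon
      obtain ⟨c', hc', hT⟩ := count_T (b := b) hb (Nat.le_add_left 1 k)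
      have hd : Dense g (T b (k + 1)) := by
        refine ⟨(|c| + 1) / c', by positivity, ?_⟩
        have hlog : Tendsto (fun N : ℕ => Real.log N) atTop atTop :=
          Real.tendsto_log_atTop.comp tendsto_natCast_atTop_atTop
        filter_upwards [hcon, hT, hlog.eventually_ge_atTop 1] with N h4 h5 h6
        rw [not_lt] at h4
        refine h4.trans ?_
        have h7 : Real.log N ^ k ≤ Real.log N ^ (k + 1) :=
          pow_le_pow_right₀ h6 (Nat.le_succ k)
        have h8 : (0 : ℝ) ≤ Real.log N ^ k := by positivity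
        calc c * Real.log N ^ k ≤ (|c| + 1) * Real.log N ^ k :=
              mul_le_mul_of_nonneg_right (by linarith [le_abs_self c]) h8
          _ ≤ (|c| + 1) * Real.log N ^ (k + 1) :=
              mul_le_mul_of_nonneg_left h7 (by positivity)
          _ = (|c| + 1) / c' * (c' * Real.log N ^ (k + 1)) := by field_simp
          _ ≤ (|c| + 1) / c' * ((T b (k + 1) ∩ Set.Icc 1 N).ncard : ℝ) :=
              mul_le_mul_of_nonneg_left h5 (by positivity)
      obtain ⟨n, hn⟩ := h (T b (k + 1)) (automatic_T hb (k + 1)) hd (4 ^ (k + 1))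
      exact absurd (rep_T hb (k + 1) n) (by omega)
    exact ⟨⟨fun h => h3 (h2 h), h1⟩, ⟨h3, fun h => h2 (h1 h)⟩⟩

end Pool.Agent.Results.MP_491344_nt.AffineThreshold
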