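import Pool.Agent.Results.MP_491344_nt.BitwiseOperations

/-!
# MP_491344_nt: the exact thresholds for sets closed under bitwise AND

`rep A n` is the number of ordered pairs of elements of `A` with sum `n`. `LatticeClosed A`: the set
`A` of natural numbers is closed under bitwise AND, or under bitwise OR, or under bitwise majority
(starting file `BitwiseOperations`, where all `g(N) ≤ N ^ β`, `β < 1 / 2`, are shown to force
unbounded representations inside this class). `AndClosed A`: closed under bitwise AND.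

1. If `A` is lattice closed and `rep A n < 2 ^ t` for all `n`, then `A` has at most `(m + 1) ^ s`
   elements below `2 ^ m` for all `m`, `s` with `2 t m ≤ s ^ 2`. Hence, if `A` is lattice closed and
   for every `C` has at least `exp (C √(log N) log log N)` elements up to `N` for infinitely many
   `N`, then `rep A` is unbounded.
2. This is sharp up to the factor `log log N`: for every `C` there is a set `A` closed under bitwise
   AND with bounded `rep A` which has at least `exp (C √(log N))` elements up to `N` for all large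
   `N`.
3. Hence, for every real `θ`, the function `g(N) = √N exp (-(log N) ^ θ)` forces unbounded
   representations inside the class of the sets closed under bitwise AND (and inside the class of the
   lattice closed sets) if and only if `θ > 1 / 2`.

Construction for 2: encode a finite set `V` of natural numbers by the number which has, in base 4, the
digit 1 at the places `pair (i, j)`, `i, j ∈ V`, and the digit 0 elsewhere. Bitwise AND of two such
numbers corresponds to the intersection of the sets, and from the sum of two such numbers one can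
recover the two sets up to their order: the symmetric difference `D` is seen at the places
`pair (i, i)`, and for `i ∈ D` the places `pair (i, j)`, `j ∈ D`, show how `D` is divided. A `k`-fold
version has `rep A ≤ 2 ^ k` and `exp (c √k √(log N))` elements.
-/

set_option autoImplicit false

namespace Pool.Agent.Results.MP_491344_nt.BitwiseAnd

open Finset Filter Pool.Agent.Results.MP_491344_nt.BitwiseOperations

/-- `A` is closed under bitwise AND -/
def AndClosed (A : Set ℕ) : Prop := ∀ a ∈ A, ∀ b ∈ A, a &&& b ∈ A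

/-! ## The construction -/

lemma testBit_sum (S : Finset ℕ) : ∀ r : ℕ, (∑ q ∈ S, 2 ^ q).testBit r = decide (r ∈ S) := by
  induction S using Finset.induction_on_max with
  | empty => intro r; simp
  | insert a S ha ih =>
    intro r
    have hna : a ∉ S := fun h => lt_irrefl _ (ha a h)
    rw [Finset.sum_insert hna]
    have hlt : ∑ q ∈ S, 2 ^ q < 2 ^ a := Nat.geomSum_lt le_rfl ha
    rcases lt_trichotomy r a with h | h | h
    · rw [Nat.testBit_two_pow_add_gt h, ih]
      simp [h.ne]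
    · subst h
      rw [Nat.testBit_two_pow_add_eq, Nat.testBit_lt_two_pow hlt]
      simp
    · have h1 : 2 ^ a + ∑ q ∈ S, 2 ^ q < 2 ^ r := by
        calc 2 ^ a + ∑ q ∈ S, 2 ^ q < 2 ^ a + 2 ^ a := by omega
          _ = 2 ^ (a + 1) := by rw [pow_succ]; ring
          _ ≤ 2 ^ r := Nat.pow_le_pow_right (by norm_num) h
      rw [Nat.testBit_lt_two_pow h1]
      have h2 : r ∉ insert a S := by
        rw [Finset.mem_insert, not_or]
        exact ⟨h.ne', fun h3 => absurd (ha r h3) (by omega)⟩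
      simp [h2]

/-- the number with base 4 digits 1 at the places in `S` -/
def val (S : Finset ℕ) : ℕ := ∑ q ∈ S, 4 ^ q

lemma val_eq (S : Finset ℕ) : val S = ∑ q ∈ S.image (fun q => 2 * q), 2 ^ q := by
  rw [val, Finset.sum_image (fun a _ b _ h => by simpa using h)]
  refine Finset.sum_congr rfl fun q _ => ?_
  rw [pow_mul]
  norm_num

lemma val_testBit (S : Finset ℕ) (r : ℕ) :
    (val S).testBit r = decide (r ∈ S.image (fun q => 2 * q)) := by
  rw [val_eq, testBit_sum]

lemma val_and (S T : Finset ℕ) : val S &&& val T = val (S ∩ T) := by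
  refine Nat.eq_of_testBit_eq fun r => ?_
  rw [Nat.testBit_and, val_testBit, val_testBit, val_testBit, ← Bool.decide_and]
  refine decide_eq_decide.2 ?_
  simp only [Finset.mem_image, Finset.mem_inter]
  constructor
  · rintro ⟨⟨a, ha, rfl⟩, ⟨b, hb, hab⟩⟩
    have : b = a := by omega
    subst this
    exact ⟨b, ⟨ha, hb⟩, rfl⟩
  · rintro ⟨a, ⟨ha, hb⟩, rfl⟩
    exact ⟨⟨a, ha, rfl⟩, ⟨a, hb, rfl⟩⟩

lemma val_inj {S T : Finset ℕ} (h : val S = val T) : S = T :=
  Finset.geomSum_injective (n := 4) (by norm_num) h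

/-- the union and the intersection of two sets are determined by the sum -/
lemma val_add_inj {S T S' T' : Finset ℕ} (h : val S + val T = val S' + val T') :
    S ∪ T = S' ∪ T' ∧ S ∩ T = S' ∩ T' := by
  have key : ∀ S T : Finset ℕ, val S + val T =
      ∑ r ∈ ((S ∪ T) \ (S ∩ T)).image (fun q => 2 * q) ∪ (S ∩ T).image (fun q => 2 * q + 1),
        2 ^ r := by
    intro S T
    have h1 : val S + val T = ∑ q ∈ S ∪ T, 4 ^ q + ∑ q ∈ S ∩ T, 4 ^ q := by
      rw [Finset.sum_union_inter]
      rfl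
    have hsub : S ∩ T ⊆ S ∪ T := fun x hx => Finset.mem_union_left _ (Finset.mem_inter.1 hx).1
    rw [h1, ← Finset.sum_sdiff hsub, Finset.sum_union, Finset.sum_image, Finset.sum_image]
    · rw [add_assoc, ← Finset.sum_add_distrib]
      congr 1
      · refine Finset.sum_congr rfl fun q _ => ?_
        rw [pow_mul]
        norm_num
      · refine Finset.sum_congr rfl fun q _ => ?_
        rw [pow_succ, pow_mul]
        norm_num
        ring
    · intro a _ b _ h; simp only at h; omega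
    · intro a _ b _ h; simp only at h; omega
    · rw [Finset.disjoint_left]
      intro x hx hx'
      rw [Finset.mem_image] at hx hx'
      obtain ⟨a, _, rfl⟩ := hx
      obtain ⟨b, _, hb⟩ := hx'
      omega
  rw [key, key] at h
  have h2 := Finset.geomSum_injective (n := 2) le_rfl h
  have h3 : S ∩ T = S' ∩ T' := by
    ext x
    have h4 := Finset.ext_iff.1 h2 (2 * x + 1)
    simp only [Finset.mem_union, Finset.mem_image] at h4
    constructor
    · intro hx
      rcases h4.1 (Or.inr ⟨x, hx, rfl⟩) with ⟨a, _, ha⟩ | ⟨a, ha, hax⟩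
      · omega
      · have : a = x := by omega
        rwa [this] at ha
    · intro hx
      rcases h4.2 (Or.inr ⟨x, hx, rfl⟩) with ⟨a, _, ha⟩ | ⟨a, ha, hax⟩
      · omega
      · have : a = x := by omega
        rwa [this] at ha
  have h5 : (S ∪ T) \ (S ∩ T) = (S' ∪ T') \ (S' ∩ T') := by
    ext x
    have h4 := Finset.ext_iff.1 h2 (2 * x)
    simp only [Finset.mem_union, Finset.mem_image] at h4
    constructor
    · intro hx
      rcases h4.1 (Or.inl ⟨x, by simpa using hx, rfl⟩) with ⟨a, ha, hax⟩ | ⟨a, _, ha⟩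
      · have : a = x := by omega
        subst this
        simpa using ha
      · omega
    · intro hx
      rcases h4.2 (Or.inl ⟨x, by simpa using hx, rfl⟩) with ⟨a, ha, hax⟩ | ⟨a, _, ha⟩
      · have : a = x := by omega
        subst this
        simpa using ha
      · omega
  refine ⟨?_, h3⟩
  have hsub : S ∩ T ⊆ S ∪ T := fun x hx => Finset.mem_union_left _ (Finset.mem_inter.1 hx).1
  have hsub' : S' ∩ T' ⊆ S' ∪ T' := fun x hx => Finset.mem_union_left _ (Finset.mem_inter.1 hx).1
  rw [← Finset.sdiff_union_of_subset hsub, ← Finset.sdiff_union_of_subset hsub', h5, h3]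

variable {k : ℕ}

/-- the places which encode the family `W` -/
def P (W : Fin k → Finset ℕ) : Finset ℕ :=
  univ.biUnion fun c : Fin k => (W c ×ˢ W c).image fun p => k * Nat.pair p.1 p.2 + c

lemma mem_P {W : Fin k → Finset ℕ} {c : Fin k} {i j : ℕ} :
    k * Nat.pair i j + c ∈ P W ↔ i ∈ W c ∧ j ∈ W c := by
  have hk : 0 < k := c.pos
  constructor
  · intro h
    rw [P, Finset.mem_biUnion] at h
    obtain ⟨c', -, h⟩ := h
    rw [Finset.mem_image] at h
    obtain ⟨⟨i', j'⟩, hp, h⟩ := h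
    rw [Finset.mem_product] at hp
    simp only at h hp
    have h1 : (k * Nat.pair i' j' + c') / k = (k * Nat.pair i j + c) / k := by rw [h]
    have h2 : (k * Nat.pair i' j' + c') % k = (k * Nat.pair i j + c) % k := by rw [h]
    rw [Nat.mul_add_div hk, Nat.mul_add_div hk, Nat.div_eq_of_lt c.2, Nat.div_eq_of_lt c'.2,
      add_zero, add_zero, Nat.pair_eq_pair] at h1
    rw [Nat.mul_add_mod, Nat.mul_add_mod, Nat.mod_eq_of_lt c.2, Nat.mod_eq_of_lt c'.2] at h2
    have h3 : c' = c := Fin.ext h2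
    subst h3
    obtain ⟨rfl, rfl⟩ := h1
    exact hp
  · intro h
    rw [P, Finset.mem_biUnion]
    exact ⟨c, Finset.mem_univ c, Finset.mem_image.2 ⟨(i, j), Finset.mem_product.2 h, rfl⟩⟩

lemma exists_place (hk : 0 < k) (r : ℕ) : ∃ (c : Fin k) (i j : ℕ), r = k * Nat.pair i j + c := by
  refine ⟨⟨r % k, Nat.mod_lt _ hk⟩, (Nat.unpair (r / k)).1, (Nat.unpair (r / k)).2, ?_⟩
  rw [Nat.pair_unpair]
  exact (Nat.div_add_mod r k).symm

lemma P_inter (hk : 0 < k) (W W' : Fin k → Finset ℕ) : P W ∩ P W' = P (fun c => W c ∩ W' c) := by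
  ext r
  obtain ⟨c, i, j, rfl⟩ := exists_place hk r
  rw [Finset.mem_inter, mem_P, mem_P, mem_P, Finset.mem_inter, Finset.mem_inter]
  tauto

lemma P_inj {W W' : Fin k → Finset ℕ} (h : P W = P W') : W = W' := by
  funext c
  ext i
  have h1 := Finset.ext_iff.1 h (k * Nat.pair i i + c)
  rw [mem_P, mem_P] at h1
  tauto

/-- the set -/
def T (k : ℕ) : Set ℕ := {x | ∃ W : Fin k → Finset ℕ, x = val (P W)}

lemma andClosed_T (hk : 0 < k) : AndClosed (T k) := by
  rintro _ ⟨W, rfl⟩ _ ⟨W', rfl⟩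
  exact ⟨fun c => W c ∩ W' c, by rw [val_and, P_inter hk]⟩

lemma tri {p q r s : Prop} (a : p ∨ q ↔ r ∨ s) (b : p ∧ q ↔ r ∧ s) (h : p ↔ r) : q ↔ s := by
  tauto

lemma tri' {p q r s : Prop} (a : p ∨ q ↔ r ∨ s) (b : p ∧ q ↔ r ∧ s) (h : p ↔ s) : q ↔ r := by
  tauto

lemma tri'' {p q r s : Prop} (a : p ∨ q ↔ r ∨ s) (b : p ∧ q ↔ r ∧ s) (h : q ↔ s) : p ↔ r := by
  tauto

lemma tri4 {p q r s : Prop} (a : p ∨ q ↔ r ∨ s) (b : p ∧ q ↔ r ∧ s) (h : r ↔ s) : p ↔ r := by
  tauto

lemma swap_aux {W X W₀ X₀ : Finset ℕ}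
    (u : ∀ i j, (i ∈ W ∧ j ∈ W) ∨ (i ∈ X ∧ j ∈ X) ↔ (i ∈ W₀ ∧ j ∈ W₀) ∨ (i ∈ X₀ ∧ j ∈ X₀))
    (n : ∀ i j, (i ∈ W ∧ j ∈ W) ∧ (i ∈ X ∧ j ∈ X) ↔ (i ∈ W₀ ∧ j ∈ W₀) ∧ (i ∈ X₀ ∧ j ∈ X₀)) :
    (W = W₀ ∧ X = X₀) ∨ (W = X₀ ∧ X = W₀) := by
  have a : ∀ j, (j ∈ W ∨ j ∈ X ↔ j ∈ W₀ ∨ j ∈ X₀) := fun j => by simpa using u j j
  have b : ∀ j, (j ∈ W ∧ j ∈ X ↔ j ∈ W₀ ∧ j ∈ X₀) := fun j => by simpa using n j j
  by_cases hD : ∃ i, (i ∈ W₀ ∧ i ∉ X₀) ∨ (i ∈ X₀ ∧ i ∉ W₀)
  · obtain ⟨i, hi⟩ := hD
    rcases hi with ⟨h1, h2⟩ | ⟨h1, h2⟩ <;> by_cases hW : i ∈ W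
    · have hX : i ∉ X := fun h => h2 ((b i).1 ⟨hW, h⟩).2
      have key : ∀ j, (j ∈ W ↔ j ∈ W₀) := fun j => by
        have := u i j
        simpa only [hW, hX, h1, h2, true_and, false_and, or_false] using this
      exact Or.inl ⟨Finset.ext key, Finset.ext fun j => tri (a j) (b j) (key j)⟩
    · have hX : i ∈ X := ((a i).2 (Or.inl h1)).resolve_left hW
      have key : ∀ j, (j ∈ X ↔ j ∈ W₀) := fun j => by
        have := u i j
        simpa only [hW, hX, h1, h2, true_and, false_and, or_false, false_or] using this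
      refine Or.inr ⟨Finset.ext fun j => ?_, Finset.ext key⟩
      exact tri ((or_comm.trans (a j))) ((and_comm.trans (b j))) (key j)
    · have hX : i ∉ X := fun h => h2 ((b i).1 ⟨hW, h⟩).1
      have key : ∀ j, (j ∈ W ↔ j ∈ X₀) := fun j => by
        have := u i j
        simpa only [hW, hX, h1, h2, true_and, false_and, or_false, false_or] using this
      exact Or.inr ⟨Finset.ext key, Finset.ext fun j => tri' (a j) (b j) (key j)⟩
    · have hX : i ∈ X := ((a i).2 (Or.inr h1)).resolve_left hW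
      have key : ∀ j, (j ∈ X ↔ j ∈ X₀) := fun j => by
        have := u i j
        simpa only [hW, hX, h1, h2, true_and, false_and, or_false, false_or] using this
      exact Or.inl ⟨Finset.ext fun j => tri'' (a j) (b j) (key j), Finset.ext key⟩
  · left
    have hD' : ∀ j, (j ∈ W₀ ↔ j ∈ X₀) := by
      intro j
      constructor
      · intro h
        by_contra h'
        exact hD ⟨j, Or.inl ⟨h, h'⟩⟩
      · intro h
        by_contra h'
        exact hD ⟨j, Or.inr ⟨h, h'⟩⟩
    have key : ∀ j, (j ∈ W ↔ j ∈ W₀) := fun j => tri4 (a j) (b j) (hD' j)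
    exact ⟨Finset.ext key, Finset.ext fun j => tri (a j) (b j) (key j)⟩

/-- two pairs with the same sum are equal up to exchanging components -/
lemma swap {W X W₀ X₀ : Fin k → Finset ℕ}
    (h : val (P W) + val (P X) = val (P W₀) + val (P X₀)) (c : Fin k) :
    (W c = W₀ c ∧ X c = X₀ c) ∨ (W c = X₀ c ∧ X c = W₀ c) := by
  obtain ⟨hU, hI⟩ := val_add_inj h
  refine swap_aux (fun i j => ?_) (fun i j => ?_)
  · have h1 := Finset.ext_iff.1 hU (k * Nat.pair i j + c)
    rwa [Finset.mem_union, Finset.mem_union, mem_P, mem_P, mem_P, mem_P] at h1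
  · have h1 := Finset.ext_iff.1 hI (k * Nat.pair i j + c)
    rwa [Finset.mem_inter, Finset.mem_inter, mem_P, mem_P, mem_P, mem_P] at h1

lemma rep_T (n : ℕ) : rep (T k) n ≤ 2 ^ k := by
  classical
  have hrep : rep (T k) n = {p : ℕ × ℕ | p.1 ∈ T k ∧ p.2 ∈ T k ∧ p.1 + p.2 = n}.ncard := rfl
  rw [hrep]
  rcases Set.eq_empty_or_nonempty {p : ℕ × ℕ | p.1 ∈ T k ∧ p.2 ∈ T k ∧ p.1 + p.2 = n} with h | h
  · rw [h, Set.ncard_empty]
    exact Nat.zero_le _
  · obtain ⟨⟨x₀, y₀⟩, ⟨W₀, hx₀⟩, ⟨X₀, hy₀⟩, hn⟩ := h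
    simp only at hx₀ hy₀ hn
    subst hx₀ hy₀
    have hsub : {p : ℕ × ℕ | p.1 ∈ T k ∧ p.2 ∈ T k ∧ p.1 + p.2 = n} ⊆
        Set.range (fun σ : Fin k → Bool =>
          (val (P fun c => if σ c then W₀ c else X₀ c), val (P fun c => if σ c then X₀ c else W₀ c))) := by
      rintro ⟨x, y⟩ ⟨⟨W, hx⟩, ⟨X, hy⟩, hxy⟩
      simp only at hx hy hxy
      subst hx hy
      have hs := swap (W := W) (X := X) (W₀ := W₀) (X₀ := X₀) (by rw [hxy, hn])
      refine ⟨fun c => decide (W c = W₀ c ∧ X c = X₀ c), ?_⟩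
      have h1 : (fun c => if decide (W c = W₀ c ∧ X c = X₀ c) = true then W₀ c else X₀ c) = W := by
        funext c
        by_cases h : W c = W₀ c ∧ X c = X₀ c
        · simp [h]
        · rcases hs c with h2 | h2
          · exact absurd h2 h
          · rw [if_neg (by simpa using h), h2.1]
      have h2 : (fun c => if decide (W c = W₀ c ∧ X c = X₀ c) = true then X₀ c else W₀ c) = X := by
        funext c
        by_cases h : W c = W₀ c ∧ X c = X₀ c
        · simp [h]
        · rcases hs c with h2 | h2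
          · exact absurd h2 h
          · rw [if_neg (by simpa using h), h2.2]
      simp only [h1, h2]
    refine (Set.ncard_le_ncard hsub (Set.finite_range _)).trans ?_
    rw [← Set.image_univ]
    refine (Set.ncard_image_le Set.finite_univ).trans ?_
    rw [Set.ncard_univ, Nat.card_eq_fintype_card]
    simp

/-- the number of elements -/
lemma count_T {s N : ℕ} (hN : 4 ^ (k * s ^ 2) ≤ N) :
    2 ^ (k * s) ≤ (T k ∩ Set.Icc 1 N).ncard + 1 := by
  classical
  have hfin : (T k ∩ Set.Icc 1 N).Finite := (Set.finite_Icc 1 N).subset Set.inter_subset_right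
  have h1 : (((Fintype.piFinset fun _ : Fin k => (range s).powerset).image
      (fun W => val (P W)) : Finset ℕ) : Set ℕ) ⊆ insert 0 (T k ∩ Set.Icc 1 N) := by
    intro x hx
    rw [Finset.mem_coe, Finset.mem_image] at hx
    obtain ⟨W, hW, rfl⟩ := hx
    rw [Fintype.mem_piFinset] at hW
    rcases Nat.eq_zero_or_pos (val (P W)) with h | h
    · left; exact h
    · right
      refine ⟨⟨W, rfl⟩, h, ?_⟩
      refine le_trans (le_of_lt ?_) hN
      refine Nat.geomSum_lt (by norm_num) fun q hq => ?_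
      rw [P, Finset.mem_biUnion] at hq
      obtain ⟨c, -, hq⟩ := hq
      rw [Finset.mem_image] at hq
      obtain ⟨⟨i, j⟩, hp, rfl⟩ := hq
      rw [Finset.mem_product] at hp
      have hc := hW c
      rw [Finset.mem_powerset] at hc
      have hi := Finset.mem_range.1 (hc hp.1)
      have hj := Finset.mem_range.1 (hc hp.2)
      simp only at hi hj ⊢
      have h2 : Nat.pair i j < s ^ 2 := by
        refine lt_of_lt_of_le (Nat.pair_lt_max_add_one_sq i j) ?_
        exact Nat.pow_le_pow_left (by rcases max_cases i j with h | h <;> omega) 2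
      have h3 := c.2
      calc k * Nat.pair i j + c < k * Nat.pair i j + k := by omega
        _ = k * (Nat.pair i j + 1) := by ring
        _ ≤ k * s ^ 2 := Nat.mul_le_mul_left _ h2
  have h2 := (Set.ncard_le_ncard h1 (hfin.insert 0)).trans (Set.ncard_insert_le _ _)
  rw [Set.ncard_coe_finset, Finset.card_image_of_injective _ (fun W W' h => P_inj (val_inj h)),
    Fintype.card_piFinset] at h2
  simp only [Finset.card_powerset, Finset.card_range, Finset.prod_const, Finset.card_univ,
    Fintype.card_fin] at h2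
  rwa [← pow_mul, mul_comm s k] at h2

lemma tendsto_sqrt_log : Tendsto (fun N : ℕ => Real.sqrt (Real.log N)) atTop atTop :=
  Real.tendsto_sqrt_atTop.comp (Real.tendsto_log_atTop.comp tendsto_natCast_atTop_atTop)

/-- part 2 -/
lemma exists_large (C : ℝ) : ∃ (A : Set ℕ) (R : ℕ), AndClosed A ∧ (∀ n, rep A n ≤ R) ∧
    ∀ᶠ N : ℕ in atTop, Real.exp (C * Real.sqrt (Real.log N)) ≤ ((A ∩ Set.Icc 1 N).ncard : ℝ) := by
  obtain ⟨k, hk⟩ := exists_nat_gt (4 * (|C| + 1) ^ 2)
  have hkR : (0 : ℝ) < k := lt_trans (by positivity) hk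
  have hk0 : 0 < k := by exact_mod_cast hkR
  refine ⟨T k, 2 ^ k, andClosed_T hk0, fun n => rep_T n, ?_⟩
  have hl2 : (0 : ℝ) < Real.log 2 := Real.log_pos (by norm_num)
  have hl2' : Real.log 2 < 1 := by linarith [Real.log_two_lt_d9]
  have hl2'' : 1 / 2 < Real.log 2 := by linarith [Real.log_two_gt_d9]
  filter_upwards [tendsto_sqrt_log.eventually_ge_atTop (k * Real.log 2 + Real.log 2),
    eventually_ge_atTop 2] with N h1 h2
  have hN : (2 : ℝ) ≤ N := by exact_mod_cast h2
  have hlN : 0 < Real.log N := Real.log_pos (by linarith)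
  set L := Real.sqrt (Real.log N) with hL
  have hL0 : 0 < L := Real.sqrt_pos.2 hlN
  have hL2 : L ^ 2 = Real.log N := Real.sq_sqrt hlN.le
  set x : ℝ := L / Real.sqrt (k * (2 * Real.log 2)) with hx
  have hx0 : 0 ≤ x := by positivity
  set s : ℕ := ⌊x⌋₊ with hs
  have hsx : (s : ℝ) ≤ x := Nat.floor_le hx0
  have hxs : x < s + 1 := Nat.lt_floor_add_one x
  -- `4 ^ (k s²) ≤ N`
  have h3 : 4 ^ (k * s ^ 2) ≤ N := by
    have h4 : ((4 : ℝ) ^ (k * s ^ 2)) ≤ N := by
      rw [← Real.log_le_log_iff (by positivity) (by linarith), Real.log_pow,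
        show (4 : ℝ) = 2 ^ 2 by norm_num, Real.log_pow]
      push_cast
      have h5 : (s : ℝ) ^ 2 ≤ x ^ 2 := pow_le_pow_left₀ (by positivity) hsx 2
      have h6 : x ^ 2 = Real.log N / (k * (2 * Real.log 2)) := by
        rw [hx, div_pow, hL2, Real.sq_sqrt (by positivity)]
      rw [h6, le_div_iff₀ (by positivity)] at h5
      linarith
    exact_mod_cast h4
  have h4 := count_T (k := k) h3
  have h5 : ((2 : ℝ) ^ (k * s)) ≤ ((T k ∩ Set.Icc 1 N).ncard : ℝ) + 1 := by exact_mod_cast h4
  -- `k s log 2 ≥ C L + log 2`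
  have h6 : (|C| + 1) * L ≤ k * x * Real.log 2 := by
    have h7 : (k : ℝ) * x * Real.log 2 = L * (k * Real.log 2 / Real.sqrt (k * (2 * Real.log 2))) := by
      rw [hx]
      ring
    have h8 : |C| + 1 ≤ k * Real.log 2 / Real.sqrt (k * (2 * Real.log 2)) := by
      rw [le_div_iff₀ (by positivity)]
      have h9 : Real.sqrt (k * (2 * Real.log 2)) ≤ k * Real.log 2 / (|C| + 1) := by
        rw [Real.sqrt_le_left (by positivity), div_pow, le_div_iff₀ (by positivity)]
        have h10 : (|C| + 1) ^ 2 * 2 ≤ k * Real.log 2 := by nlinarith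
        nlinarith [mul_pos hkR hl2]
      rw [le_div_iff₀ (by positivity)] at h9
      linarith
    rw [h7, mul_comm]
    exact mul_le_mul_of_nonneg_left h8 hL0.le
  have h7 : C * L + Real.log 2 ≤ (k * s : ℕ) * Real.log 2 := by
    push_cast
    have h8 : (k : ℝ) * x * Real.log 2 ≤ k * s * Real.log 2 + k * Real.log 2 := by
      have : (k : ℝ) * Real.log 2 * x ≤ k * Real.log 2 * (s + 1) :=
        mul_le_mul_of_nonneg_left hxs.le (by positivity)
      linarith
    have h9 : C * L ≤ |C| * L := mul_le_mul_of_nonneg_right (le_abs_self C) hL0.le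
    linarith
  have h8 : Real.exp (C * L) * 2 ≤ (2 : ℝ) ^ (k * s) := by
    have h9 := Real.exp_le_exp.2 h7
    rw [Real.exp_add, Real.exp_log (by norm_num)] at h9
    rw [← Real.exp_log (show (0 : ℝ) < 2 ^ (k * s) by positivity), Real.log_pow]
    exact h9
  have h9 : 1 ≤ Real.exp (C * L) ∨ Real.exp (C * L) < 1 := le_or_gt _ _
  rcases h9 with h9 | h9
  · linarith
  · -- then one element suffices
    have h10 : (1 : ℝ) ≤ ((T k ∩ Set.Icc 1 N).ncard : ℝ) := by
      have h11 : (2 : ℝ) ≤ (2 : ℝ) ^ (k * s) := by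
        have h12 : 1 ≤ k * s := by
          by_contra h12
          have h13 : k * s = 0 := by omega
          have h14 : s = 0 := by
            rcases Nat.mul_eq_zero.1 h13 with h | h
            · omega
            · exact h
          -- `x < 1` contradicts `(|C| + 1) L ≤ k x log 2`
          have h15 : x < 1 := by rw [h14] at hxs; simpa using hxs
          have h16 : (k : ℝ) * x * Real.log 2 < k * Real.log 2 := by
            have : (k : ℝ) * Real.log 2 * x < k * Real.log 2 * 1 :=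
              mul_lt_mul_of_pos_left h15 (by positivity)
            linarith
          have h17 : L ≤ (|C| + 1) * L := by nlinarith [abs_nonneg C]
          linarith
        calc (2 : ℝ) = 2 ^ 1 := by norm_num
          _ ≤ 2 ^ (k * s) := pow_le_pow_right₀ (by norm_num) h12
      linarith
    linarith

/-! ## The upper bound -/

/-- part 1, explicit form -/
lemma card_le {A : Set ℕ} (hA : LatticeClosed A) {t : ℕ} (ht : ∀ n, rep A n < 2 ^ t) {m s : ℕ}
    (hm : 0 < m) (hs : 2 * t * m ≤ s ^ 2) : (A ∩ Set.Iio (2 ^ m)).ncard ≤ (m + 1) ^ s := by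
  by_contra hcon
  push Not at hcon
  obtain ⟨n, hn⟩ := part1 A hA m s (lt_of_le_of_lt (sum_choose_le m s) hcon)
  have h1 : t ≤ s ^ 2 / (2 * m) := by
    rw [Nat.le_div_iff_mul_le (by omega)]
    calc t * (2 * m) = 2 * t * m := by ring
      _ ≤ s ^ 2 := hs
  have h2 : 2 ^ t ≤ 2 ^ (s ^ 2 / (2 * m)) := Nat.pow_le_pow_right (by norm_num) h1
  have h3 := ht n
  omega

/-- part 1, asymptotic form -/
lemma few {A : Set ℕ} (hA : LatticeClosed A) {B : ℕ} (hB : ∀ n, rep A n < B) :
    ∃ C : ℝ, ∀ᶠ N : ℕ in atTop, ((A ∩ Set.Icc 1 N).ncard : ℝ) <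
      Real.exp (C * Real.sqrt (Real.log N) * Real.log (Real.log N)) := by
  have ht : ∀ n, rep A n < 2 ^ B := fun n => (hB n).trans Nat.lt_two_pow_self
  refine ⟨2 * (Real.sqrt (6 * B) + 1) + 1, ?_⟩
  have hlog : Tendsto (fun N : ℕ => Real.log N) atTop atTop :=
    Real.tendsto_log_atTop.comp tendsto_natCast_atTop_atTop
  filter_upwards [hlog.eventually_ge_atTop 5, eventually_ge_atTop 1] with N h1 h2
  have hN : (1 : ℝ) ≤ N := by exact_mod_cast h2
  set m : ℕ := Nat.log 2 N + 1 with hm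
  set y : ℝ := Real.sqrt (2 * B * m) with hy
  set s : ℕ := ⌈y⌉₊ with hs
  have hys : y ≤ s := Nat.le_ceil y
  have hsy : (s : ℝ) < y + 1 := Nat.ceil_lt_add_one (Real.sqrt_nonneg _)
  have h3 : 2 * B * m ≤ s ^ 2 := by
    have h4 : (2 * B * m : ℝ) ≤ (s : ℝ) ^ 2 := by
      rw [← Real.sq_sqrt (show (0 : ℝ) ≤ 2 * B * m by positivity)]
      exact pow_le_pow_left₀ (Real.sqrt_nonneg _) hys 2
    exact_mod_cast h4
  have h4 := card_le hA ht (m := m) (s := s) (by omega) h3
  have h5 : (A ∩ Set.Icc 1 N).ncard ≤ (A ∩ Set.Iio (2 ^ m)).ncard := by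
    refine Set.ncard_le_ncard ?_ ((Set.finite_Iio _).subset Set.inter_subset_right)
    rintro a ⟨ha, ha2⟩
    exact ⟨ha, lt_of_le_of_lt ha2.2 (Nat.lt_pow_succ_log_self (by norm_num) N)⟩
  have h6 : ((A ∩ Set.Icc 1 N).ncard : ℝ) ≤ ((m : ℝ) + 1) ^ s := by
    exact_mod_cast h5.trans h4
  -- estimates
  have hl2 : (0 : ℝ) < Real.log 2 := Real.log_pos (by norm_num)
  have hl2'' : 1 / 2 < Real.log 2 := by linarith [Real.log_two_gt_d9]
  have h7 : (m : ℝ) + 1 ≤ 3 * Real.log N := by
    have h8 : (Nat.log 2 N : ℝ) * Real.log 2 ≤ Real.log N := by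
      have h9 : ((2 : ℝ) ^ Nat.log 2 N) ≤ N := by
        exact_mod_cast Nat.pow_log_le_self 2 (by omega)
      have h10 := Real.log_le_log (by positivity) h9
      rwa [Real.log_pow] at h10
    have h9 : (Nat.log 2 N : ℝ) ≤ 2 * Real.log N := by nlinarith [Nat.cast_nonneg (α := ℝ) (Nat.log 2 N)]
    rw [hm]
    push_cast
    linarith
  have h8 : (1 : ℝ) < Real.log (Real.log N) := by
    have h9 : Real.exp 1 < Real.log N := by linarith [Real.exp_one_lt_d9]
    have h10 := Real.log_lt_log (Real.exp_pos 1) h9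
    rwa [Real.log_exp] at h10
  have h9 : Real.log ((m : ℝ) + 1) ≤ 2 * Real.log (Real.log N) := by
    calc Real.log ((m : ℝ) + 1) ≤ Real.log (Real.log N ^ 2) := by
          refine Real.log_le_log (by positivity) (h7.trans ?_)
          nlinarith
      _ = 2 * Real.log (Real.log N) := by rw [Real.log_pow]; norm_num
  have hL1 : 1 ≤ Real.sqrt (Real.log N) := by
    rw [Real.one_le_sqrt]
    linarith
  have h10 : y ≤ Real.sqrt (6 * B) * Real.sqrt (Real.log N) := by
    rw [← Real.sqrt_mul (by positivity)]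
    refine Real.sqrt_le_sqrt ?_
    have h11 : (m : ℝ) ≤ 3 * Real.log N := by linarith
    have h12 : (0 : ℝ) ≤ B := Nat.cast_nonneg B
    nlinarith
  have h11 : (s : ℝ) ≤ (Real.sqrt (6 * B) + 1) * Real.sqrt (Real.log N) := by
    nlinarith
  have hm1 : 0 ≤ Real.log ((m : ℝ) + 1) := Real.log_nonneg (by
    have : (0 : ℝ) ≤ m := Nat.cast_nonneg m
    linarith)
  calc ((A ∩ Set.Icc 1 N).ncard : ℝ) ≤ ((m : ℝ) + 1) ^ s := h6
    _ = Real.exp (s * Real.log ((m : ℝ) + 1)) := by
        rw [← Real.log_pow, Real.exp_log (by positivity)]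
    _ ≤ Real.exp (((Real.sqrt (6 * B) + 1) * Real.sqrt (Real.log N)) *
          (2 * Real.log (Real.log N))) := by
        refine Real.exp_le_exp.2 ?_
        exact mul_le_mul h11 h9 hm1 (by positivity)
    _ < Real.exp ((2 * (Real.sqrt (6 * B) + 1) + 1) * Real.sqrt (Real.log N) *
          Real.log (Real.log N)) := by
        refine Real.exp_lt_exp.2 ?_
        have h12 : 0 < Real.sqrt (Real.log N) * Real.log (Real.log N) := by positivity
        nlinarith

lemma growth {θ : ℝ} (hθ : 1 / 2 < θ) (C : ℝ) {c : ℝ} (hc : 0 < c) : ∀ᶠ N : ℕ in atTop,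
    Real.exp (C * Real.sqrt (Real.log N) * Real.log (Real.log N)) ≤
      c * Real.exp (Real.log N ^ θ) := by
  have hlog : Tendsto (fun N : ℕ => Real.log N) atTop atTop :=
    Real.tendsto_log_atTop.comp tendsto_natCast_atTop_atTop
  have h1 : Tendsto (fun x : ℝ => Real.log x / x ^ (θ - 1 / 2)) atTop (nhds 0) :=
    (isLittleO_log_rpow_atTop (by linarith)).tendsto_div_nhds_zero
  have h2 : ∀ᶠ x : ℝ in atTop, Real.log x / x ^ (θ - 1 / 2) < 1 / (2 * (|C| + 1)) :=
    h1.eventually_lt_const (by positivity)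
  have h3 : ∀ᶠ x : ℝ in atTop, 2 * |Real.log c| ≤ x ^ θ :=
    (tendsto_rpow_atTop (by linarith)).eventually_ge_atTop _
  filter_upwards [hlog.eventually h2, hlog.eventually h3, hlog.eventually_ge_atTop 3]
    with N h4 h5 h6
  set x := Real.log (N : ℝ) with hx
  have hx0 : 0 < x := by linarith
  have hlx : 0 ≤ Real.log x := Real.log_nonneg (by linarith)
  rw [← Real.exp_log hc, ← Real.exp_add]
  refine Real.exp_le_exp.2 ?_
  have h7 : 0 < x ^ (θ - 1 / 2) := Real.rpow_pos_of_pos hx0 _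
  rw [div_lt_iff₀ h7] at h4
  have h8 : Real.sqrt x * x ^ (θ - 1 / 2) = x ^ θ := by
    rw [Real.sqrt_eq_rpow, ← Real.rpow_add hx0]
    congr 1
    ring
  have hs : 0 < Real.sqrt x := Real.sqrt_pos.2 hx0
  have h9 : C * Real.sqrt x * Real.log x ≤ x ^ θ / 2 := by
    calc C * Real.sqrt x * Real.log x ≤ (|C| + 1) * Real.sqrt x * Real.log x := by
          refine mul_le_mul_of_nonneg_right (mul_le_mul_of_nonneg_right ?_ hs.le) hlx
          linarith [le_abs_self C]
      _ ≤ (|C| + 1) * Real.sqrt x * (1 / (2 * (|C| + 1)) * x ^ (θ - 1 / 2)) :=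
          mul_le_mul_of_nonneg_left h4.le (by positivity)
      _ = Real.sqrt x * x ^ (θ - 1 / 2) / 2 := by field_simp
      _ = x ^ θ / 2 := by rw [h8]
  have h10 := neg_abs_le (Real.log c)
  linarith

/-- **The exact thresholds for sets closed under bitwise AND.** -/
theorem result :
    -- 1. the upper bound
    (∀ (A : Set ℕ) (t : ℕ), LatticeClosed A → (∀ n, rep A n < 2 ^ t) → ∀ m s : ℕ, 0 < m →
      2 * t * m ≤ s ^ 2 → (A ∩ Set.Iio (2 ^ m)).ncard ≤ (m + 1) ^ s) ∧
    (∀ A : Set ℕ, LatticeClosed A →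
      (∀ C : ℝ, ∃ᶠ N : ℕ in atTop,
        Real.exp (C * Real.sqrt (Real.log N) * Real.log (Real.log N)) ≤
          ((A ∩ Set.Icc 1 N).ncard : ℝ)) →
      ∀ B : ℕ, ∃ n, B ≤ rep A n) ∧
    -- 2. the construction
    (∀ C : ℝ, ∃ (A : Set ℕ) (R : ℕ), AndClosed A ∧ (∀ n, rep A n ≤ R) ∧
      ∀ᶠ N : ℕ in atTop, Real.exp (C * Real.sqrt (Real.log N)) ≤
        ((A ∩ Set.Icc 1 N).ncard : ℝ)) ∧
    -- 3. the exact exponent of the thresholds
    (∀ θ : ℝ,
      (ForcesIn AndClosed (fun N => Real.sqrt N * Real.exp (-(Real.log N) ^ θ)) ↔ 1 / 2 < θ) ∧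
      (ForcesIn LatticeClosed (fun N => Real.sqrt N * Real.exp (-(Real.log N) ^ θ)) ↔
        1 / 2 < θ)) := by
  have hquot : ∀ (θ : ℝ) (N : ℕ), 1 ≤ N →
      Real.sqrt N / (Real.sqrt N * Real.exp (-(Real.log N) ^ θ)) = Real.exp (Real.log N ^ θ) := by
    intro θ N hN
    have h1 : 0 < Real.sqrt (N : ℝ) := Real.sqrt_pos.2 (by exact_mod_cast hN)
    rw [div_mul_eq_div_div, div_self h1.ne', Real.exp_neg, one_div, inv_inv]
  have hup : ∀ θ : ℝ, 1 / 2 < θ →
      ForcesIn LatticeClosed (fun N => Real.sqrt N * Real.exp (-(Real.log N) ^ θ)) := by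
    rintro θ hθ A hA ⟨C, hC, hN⟩ B
    by_contra hcon
    push Not at hcon
    obtain ⟨C', hC'⟩ := few hA hcon
    obtain ⟨N, h1, h2, h3, h4⟩ := (hN.and (hC'.and ((growth hθ C' (c := 1 / C)
      (by positivity)).and (eventually_ge_atTop 1)))).exists
    rw [hquot θ N h4] at h1
    have h5 : 1 / C * Real.exp (Real.log N ^ θ) ≤ ((A ∩ Set.Icc 1 N).ncard : ℝ) := by
      rw [one_div, inv_mul_le_iff₀ hC]
      exact h1
    linarith
  have hdown : ∀ θ : ℝ,
      ForcesIn AndClosed (fun N => Real.sqrt N * Real.exp (-(Real.log N) ^ θ)) → 1 / 2 < θ := by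
    intro θ h
    by_contra hθ
    rw [not_lt] at hθ
    obtain ⟨A, R, hA, hR, hN⟩ := exists_large 1
    obtain ⟨n, hn⟩ := h A hA ⟨1, one_pos, by
      have hlog : Tendsto (fun N : ℕ => Real.log N) atTop atTop :=
        Real.tendsto_log_atTop.comp tendsto_natCast_atTop_atTop
      filter_upwards [hN, hlog.eventually_ge_atTop 1, eventually_ge_atTop 1] with N h1 h2 h3
      rw [hquot θ N h3, one_mul]
      refine le_trans (Real.exp_le_exp.2 ?_) h1
      rw [one_mul, Real.sqrt_eq_rpow]
      exact Real.rpow_le_rpow_of_exponent_le h2 hθ⟩ (R + 1)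
    have := hR n
    omega
  have hincl : ∀ A : Set ℕ, AndClosed A → LatticeClosed A := fun A hA => Or.inl hA
  refine ⟨fun A t hA ht m s hm hs => card_le hA ht hm hs, ?_, exists_large, fun θ =>
    ⟨⟨hdown θ, fun h A hA => hup θ h A (hincl A hA)⟩,
      ⟨fun h => hdown θ fun A hA => h A (hincl A hA), hup θ⟩⟩⟩
  intro A hA h B
  by_contra hcon
  push Not at hcon
  obtain ⟨C, hC⟩ := few hA hcon
  obtain ⟨N, h1, h2⟩ := ((h C).and_eventually hC).exists
  linarith

end Pool.Agent.Results.MP_491344_nt.BitwiseAnd
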