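import Mathlib
import Pool.Agent.H397R2.NS6

/-!
# MP_491344_nt: density thresholds and the neighbourhoods of the squares

`rep A s` is the number of ordered pairs of elements of `A` with sum `s`, `psi x = log x / log log x`,
and for a real `α > 0` the set `Near α` consists of all natural numbers `a` within
`exp (√(psi a) / 100)` of a number `α n²`, `n ∈ ℕ`.

1. If `rep A s < exp (√(psi s) / 100)` for all large `s` (for instance if `rep A` is bounded), then
   `|A ∩ Near α ∩ [0, x]| < √x exp (-√(psi x) / 100)` for all large `x`, for every `α > 0`.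
2. Let `g(N) ≤ exp (c √(psi N))` for large `N`, `c < 1 / 100`. Then `g` forces unbounded
   representations inside all finite unions of the sets `Near α`: if such a set satisfies
   `|A ∩ [1, N]| ≥ c' √N / g(N)` for infinitely many `N`, for some `c' > 0`, then
   `rep A s ≥ exp (√(psi s) / 100)` for infinitely many `s`.
3. For these `g` and every countable set `Λ` of positive reals: `g` forces unbounded representations
   as soon as it does so inside the class of the sets `A` for which `A ∩ Near α` is finite for all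
   `α ∈ Λ`.
4. So some `g → ∞` forces unbounded representations (Q1) if and only if some `g → ∞` does so inside
   the class of the sets which have only finitely many elements in each `Near α`, `α ∈ Λ` (for
   instance for all positive algebraic numbers `α`).

Part 1 is deduced from the theorem `Pool.Agent.H397R2.NS.part1` behind the starting file
`MP_12a1af_nt.NearSquares`.
-/

set_option autoImplicit false

namespace Pool.Agent.Results.MP_491344_nt.NearSquareThresholds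

open Finset Filter Topology Real Pool.Agent.H397R2.NS

/-- `log x / log log x` -/
noncomputable def psi (x : ℝ) : ℝ := log x / log (log x)

/-- the natural numbers within `exp (√(psi a) / 100)` of some `α n²` -/
def Near (α : ℝ) : Set ℕ := {a | ∃ n : ℕ, |(a : ℝ) - α * n ^ 2| ≤ exp (1 / 100 * sqrt (psi a))}

/-- `|A ∩ [1, N]| ≫ √N / g(N)` -/
def Dense (g : ℕ → ℝ) (A : Set ℕ) : Prop :=
  ∃ C : ℝ, 0 < C ∧ ∀ᶠ N : ℕ in atTop, sqrt N / g N ≤ C * ((A ∩ Set.Icc 1 N).ncard : ℝ)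

/-- `g` forces unbounded representations inside the class `𝒞` -/
def ForcesIn (𝒞 : Set ℕ → Prop) (g : ℕ → ℝ) : Prop :=
  ∀ A : Set ℕ, 𝒞 A → Dense g A → ∀ K : ℕ, ∃ n, K < rep A n

/-- `A` has only finitely many elements in each `Near α`, `α ∈ Λ` -/
def Avoids (Λ : Set ℝ) (A : Set ℕ) : Prop := ∀ α ∈ Λ, (A ∩ Near α).Finite

lemma tendsto_sqrt_psi : Tendsto (fun x : ℕ => sqrt (psi x)) atTop atTop :=
  tendsto_sqrt_atTop.comp (psi_tendsto.comp (tendsto_log_atTop.comp tendsto_natCast_atTop_atTop))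

lemma psi_mono : ∀ᶠ x : ℕ in atTop, ∀ a : ℕ, a ≤ x → psi a ≤ psi x := by
  have hlogX : Tendsto (fun X : ℕ => log (X : ℝ)) atTop atTop :=
    tendsto_log_atTop.comp tendsto_natCast_atTop_atTop
  have hpsi : Tendsto (fun X : ℕ => psi X) atTop atTop := psi_tendsto.comp hlogX
  have h1 : ∀ᶠ x : ℕ in atTop, ∀ a ∈ Finset.range 16, psi a ≤ psi x := by
    rw [Filter.eventually_all_finset]
    intro a _
    exact hpsi.eventually (eventually_ge_atTop _)
  filter_upwards [h1, hlogX.eventually (eventually_ge_atTop (3 : ℝ))] with x hx1 hx2 a hax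
  by_cases h : a < 16
  · exact hx1 a (Finset.mem_range.mpr h)
  · have ha16 : (16 : ℝ) ≤ a := by exact_mod_cast (by omega : 16 ≤ a)
    have h2 := psi_le (s := (a : ℝ)) (L := log (x : ℝ)) (K := 1) le_rfl hx2 ha16 (by
      rw [one_mul]
      exact log_le_log (by linarith) (by exact_mod_cast hax))
    rwa [one_mul] at h2

/-- part 1 -/
lemma few_near {A : Set ℕ} (hA : ∀ᶠ s : ℕ in atTop, (rep A s : ℝ) < exp (1 / 100 * sqrt (psi s)))
    {α : ℝ} (hα : 0 < α) : ∀ᶠ x : ℕ in atTop,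
      ((A ∩ Near α ∩ Set.Iic x).ncard : ℝ) < sqrt x * exp (-(1 / 100 * sqrt (psi x))) := by
  have h1 : ¬ ∃ᶠ x : ℕ in atTop, sqrt x * exp (-(1 / 100 * sqrt (log x / log (log x)))) ≤
      ({a : ℕ | a ∈ A ∧ a ≤ x ∧ ∃ n : ℕ, |(a : ℝ) - α * n ^ 2| ≤
        exp (1 / 100 * sqrt (log x / log (log x)))}.ncard : ℝ) := by
    intro h
    obtain ⟨s, h2, h3⟩ := ((part1 α hα A h).and_eventually hA).exists
    exact absurd h2 (not_le.2 h3)
  rw [not_frequently] at h1
  filter_upwards [h1, psi_mono] with x hx hm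
  rw [not_le] at hx
  refine lt_of_le_of_lt ?_ hx
  have hfin : {a : ℕ | a ∈ A ∧ a ≤ x ∧ ∃ n : ℕ, |(a : ℝ) - α * n ^ 2| ≤
      exp (1 / 100 * sqrt (log x / log (log x)))}.Finite :=
    (Set.finite_Iic x).subset fun a ha => ha.2.1
  have hsub : A ∩ Near α ∩ Set.Iic x ⊆ {a : ℕ | a ∈ A ∧ a ≤ x ∧ ∃ n : ℕ, |(a : ℝ) - α * n ^ 2| ≤
      exp (1 / 100 * sqrt (log x / log (log x)))} := by
    rintro a ⟨⟨h2, n, h3⟩, h4⟩
    refine ⟨h2, h4, n, h3.trans (exp_le_exp.mpr ?_)⟩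
    exact mul_le_mul_of_nonneg_left (sqrt_le_sqrt (hm a h4)) (by norm_num)
  exact_mod_cast Set.ncard_le_ncard hsub hfin

/-- slow functions and the number of elements near the squares -/
lemma rare {A : Set ℕ} (hA : ∀ᶠ s : ℕ in atTop, (rep A s : ℝ) < exp (1 / 100 * sqrt (psi s)))
    {α : ℝ} (hα : 0 < α) {g : ℕ → ℝ} {c : ℝ} (hc : c < 1 / 100)
    (hg : ∀ᶠ N : ℕ in atTop, g N ≤ exp (c * sqrt (psi N))) {ε : ℝ} (hε : 0 < ε) :
    ∀ᶠ x : ℕ in atTop, ((A ∩ Near α ∩ Set.Iic x).ncard : ℝ) * g x ≤ ε * sqrt x := by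
  have h1 : ∀ᶠ x : ℕ in atTop, -log ε / (1 / 100 - c) ≤ sqrt (psi x) :=
    tendsto_sqrt_psi.eventually_ge_atTop _
  filter_upwards [few_near hA hα, hg, h1] with x h2 h3 h4
  have h5 : exp (-(1 / 100 * sqrt (psi x))) * exp (c * sqrt (psi x)) ≤ ε := by
    rw [← exp_add]
    rw [div_le_iff₀ (by linarith)] at h4
    calc exp (-(1 / 100 * sqrt (psi x)) + c * sqrt (psi x)) ≤ exp (log ε) :=
          exp_le_exp.mpr (by linarith)
      _ = ε := exp_log hε
  calc ((A ∩ Near α ∩ Set.Iic x).ncard : ℝ) * g x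
      ≤ ((A ∩ Near α ∩ Set.Iic x).ncard : ℝ) * exp (c * sqrt (psi x)) :=
        mul_le_mul_of_nonneg_left h3 (Nat.cast_nonneg _)
    _ ≤ sqrt x * exp (-(1 / 100 * sqrt (psi x))) * exp (c * sqrt (psi x)) :=
        mul_le_mul_of_nonneg_right h2.le (exp_pos _).le
    _ = (exp (-(1 / 100 * sqrt (psi x))) * exp (c * sqrt (psi x))) * sqrt x := by ring
    _ ≤ ε * sqrt x := mul_le_mul_of_nonneg_right h5 (sqrt_nonneg _)

lemma geom_bound (N : ℕ) : ∑ k ∈ range N, ((1 : ℝ) / 2) ^ k ≤ 2 := by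
  have h := geom_sum_eq (x := (1 : ℝ) / 2) (by norm_num) N
  rw [h]
  have : (0 : ℝ) ≤ (1 / 2) ^ N := by positivity
  rw [div_le_iff_of_neg (by norm_num)]
  linarith

/-- the members of a countable family of sets which contain few elements of `A` can be avoided -/
lemma reduction {g : ℕ → ℝ} (hg : ∀ᶠ N : ℕ in atTop, 0 < g N) (S : ℕ → Set ℕ) {A : Set ℕ}
    (hS : ∀ k, ∀ ε : ℝ, 0 < ε →
      ∀ᶠ x : ℕ in atTop, ((A ∩ S k ∩ Set.Iic x).ncard : ℝ) * g x ≤ ε * sqrt x)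
    {c : ℝ} (hc : 0 < c) :
    ∃ B : Set ℕ, B ⊆ A ∧ (∀ k, (B ∩ S k).Finite) ∧ (A ⊆ ⋃ k, S k → A \ B ⊆ ⋃ k, S k) ∧
      ∀ᶠ N : ℕ in atTop, (((A \ B) ∩ Set.Icc 1 N).ncard : ℝ) ≤ c * sqrt N / g N := by
  classical
  have h1 : ∀ k : ℕ, ∃ x₀ : ℕ, ∀ x : ℕ, x₀ ≤ x →
      ((A ∩ S k ∩ Set.Iic x).ncard : ℝ) * g x ≤ c / 2 * (1 / 2) ^ k * sqrt x := by
    intro k
    exact eventually_atTop.1 (hS k (c / 2 * (1 / 2) ^ k) (by positivity))
  choose X hX using h1
  set B : Set ℕ := A \ ⋃ k, (S k ∩ Set.Ioi (X k + k)) with hB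
  refine ⟨B, Set.sdiff_subset, ?_, fun h => Set.sdiff_subset.trans h, ?_⟩
  · intro k
    apply Set.Finite.subset (Set.finite_Iic (X k + k))
    rintro a ⟨⟨_, ha2⟩, ha3⟩
    rw [Set.mem_Iic]
    by_contra hcon
    push Not at hcon
    exact ha2 (Set.mem_iUnion.2 ⟨k, ha3, hcon⟩)
  · filter_upwards [hg] with N hgN
    have hfin : ∀ k, (A ∩ S k ∩ Set.Iic N).Finite := fun k =>
      (Set.finite_Iic N).subset Set.inter_subset_right
    have hsub : (A \ B) ∩ Set.Icc 1 N ⊆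
        (((range N).filter (fun k => X k ≤ N)).biUnion (fun k => (hfin k).toFinset) : Finset ℕ) := by
      rintro a ⟨⟨ha1, ha2⟩, ha3⟩
      have ha4 : a ∈ ⋃ k, (S k ∩ Set.Ioi (X k + k)) := by
        by_contra hcon
        exact ha2 ⟨ha1, hcon⟩
      obtain ⟨k, hk1, hk2⟩ := Set.mem_iUnion.1 ha4
      rw [Set.mem_Ioi] at hk2
      rw [Set.mem_Icc] at ha3
      rw [Finset.mem_coe, Finset.mem_biUnion]
      refine ⟨k, ?_, (Set.Finite.mem_toFinset _).2 ⟨⟨ha1, hk1⟩, ha3.2⟩⟩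
      rw [Finset.mem_filter, Finset.mem_range]
      omega
    have h2 : ((A \ B) ∩ Set.Icc 1 N).ncard ≤
        ∑ k ∈ (range N).filter (fun k => X k ≤ N), (A ∩ S k ∩ Set.Iic N).ncard := by
      refine le_trans (Set.ncard_le_ncard hsub (Finset.finite_toSet _)) ?_
      rw [Set.ncard_coe_finset]
      refine le_trans Finset.card_biUnion_le ?_
      apply Finset.sum_le_sum
      intro k _
      rw [Set.ncard_eq_toFinset_card _ (hfin k)]
    have h3 : (((A \ B) ∩ Set.Icc 1 N).ncard : ℝ) * g N ≤ c * sqrt N := by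
      calc (((A \ B) ∩ Set.Icc 1 N).ncard : ℝ) * g N
          ≤ (∑ k ∈ (range N).filter (fun k => X k ≤ N), ((A ∩ S k ∩ Set.Iic N).ncard : ℝ)) *
              g N := by
            apply mul_le_mul_of_nonneg_right _ hgN.le
            exact_mod_cast h2
        _ = ∑ k ∈ (range N).filter (fun k => X k ≤ N),
              ((A ∩ S k ∩ Set.Iic N).ncard : ℝ) * g N := by rw [Finset.sum_mul]
        _ ≤ ∑ k ∈ (range N).filter (fun k => X k ≤ N), c / 2 * (1 / 2) ^ k * sqrt N := by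
            apply Finset.sum_le_sum
            intro k hk
            rw [Finset.mem_filter] at hk
            exact hX k N hk.2
        _ ≤ ∑ k ∈ range N, c / 2 * (1 / 2) ^ k * sqrt N := by
            apply Finset.sum_le_sum_of_subset_of_nonneg (Finset.filter_subset _ _)
            intro k _ _
            positivity
        _ = c / 2 * sqrt N * ∑ k ∈ range N, ((1 : ℝ) / 2) ^ k := by
            rw [Finset.mul_sum]
            apply Finset.sum_congr rfl
            intro k _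
            ring
        _ ≤ c / 2 * sqrt N * 2 :=
            mul_le_mul_of_nonneg_left (geom_bound N) (by positivity)
        _ = c * sqrt N := by ring
    rw [le_div_iff₀ hgN]
    exact h3

lemma count_split (A B : Set ℕ) (N : ℕ) :
    ((A ∩ Set.Icc 1 N).ncard : ℝ) ≤
      (((A \ B) ∩ Set.Icc 1 N).ncard : ℝ) + ((B ∩ Set.Icc 1 N).ncard : ℝ) := by
  have hfin : (((A \ B) ∩ Set.Icc 1 N) ∪ (B ∩ Set.Icc 1 N)).Finite :=
    ((Set.finite_Icc 1 N).inter_of_right _).union ((Set.finite_Icc 1 N).inter_of_right _)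
  have h := le_trans (Set.ncard_le_ncard (s := A ∩ Set.Icc 1 N) ?_ hfin) (Set.ncard_union_le _ _)
  · exact_mod_cast h
  intro a ha
  by_cases hb : a ∈ B
  · exact Or.inr ⟨hb, ha.2⟩
  · exact Or.inl ⟨⟨ha.1, hb⟩, ha.2⟩

lemma rep_mono {A B : Set ℕ} (h : A ⊆ B) (n : ℕ) : rep A n ≤ rep B n := by
  unfold rep
  apply Set.ncard_le_ncard _ (rep_finite B n)
  rintro p ⟨h1, h2, h3⟩
  exact ⟨h h1, h h2, h3⟩

lemma small_of_bounded {A : Set ℕ} {K : ℕ} (hK : ∀ n, rep A n ≤ K) :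
    ∀ᶠ s : ℕ in atTop, (rep A s : ℝ) < exp (1 / 100 * sqrt (psi s)) := by
  have h1 : Tendsto (fun x : ℕ => exp (1 / 100 * sqrt (psi x))) atTop atTop :=
    tendsto_exp_atTop.comp (tendsto_sqrt_psi.const_mul_atTop (by norm_num))
  filter_upwards [h1.eventually_gt_atTop (K : ℝ)] with s hs
  exact lt_of_le_of_lt (by exact_mod_cast hK s) hs

/-- part 2 -/
lemma inside {F : Finset ℝ} (hF : ∀ α ∈ F, 0 < α) {g : ℕ → ℝ} (hg : ∀ᶠ N : ℕ in atTop, 0 < g N)
    {c : ℝ} (hc : c < 1 / 100) (hgc : ∀ᶠ N : ℕ in atTop, g N ≤ exp (c * sqrt (psi N)))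
    {A : Set ℕ} (hAF : A ⊆ ⋃ α ∈ F, Near α) {c' : ℝ} (hc' : 0 < c')
    (hN : ∃ᶠ N : ℕ in atTop, c' * sqrt N / g N ≤ ((A ∩ Set.Icc 1 N).ncard : ℝ)) :
    ∃ᶠ s : ℕ in atTop, exp (1 / 100 * sqrt (psi s)) ≤ rep A s := by
  classical
  by_contra hcon
  rw [not_frequently] at hcon
  have hA : ∀ᶠ s : ℕ in atTop, (rep A s : ℝ) < exp (1 / 100 * sqrt (psi s)) :=
    hcon.mono fun s hs => not_le.1 hs
  have h1 : ∀ᶠ x : ℕ in atTop, ∀ α ∈ F, ((A ∩ Near α ∩ Set.Iic x).ncard : ℝ) * g x ≤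
      c' / (2 * (F.card + 1)) * sqrt x := by
    rw [Filter.eventually_all_finset]
    intro α hα
    exact rare hA (hF α hα) hc hgc (by positivity)
  obtain ⟨N, h2, h3, h4, h5⟩ := (hN.and_eventually (h1.and (hg.and (eventually_ge_atTop 1)))).exists
  have hfin : ∀ α, (A ∩ Near α ∩ Set.Iic N).Finite := fun α =>
    (Set.finite_Iic N).subset Set.inter_subset_right
  have hsub : A ∩ Set.Icc 1 N ⊆ (F.biUnion (fun α => (hfin α).toFinset) : Finset ℕ) := by
    rintro a ⟨ha1, ha2⟩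
    have h6 := hAF ha1
    rw [Set.mem_iUnion₂] at h6
    obtain ⟨α, hα, h7⟩ := h6
    rw [Finset.mem_coe, Finset.mem_biUnion]
    exact ⟨α, hα, (Set.Finite.mem_toFinset _).2 ⟨⟨ha1, h7⟩, ha2.2⟩⟩
  have h6 : (A ∩ Set.Icc 1 N).ncard ≤ ∑ α ∈ F, (A ∩ Near α ∩ Set.Iic N).ncard := by
    refine le_trans (Set.ncard_le_ncard hsub (Finset.finite_toSet _)) ?_
    rw [Set.ncard_coe_finset]
    refine le_trans Finset.card_biUnion_le ?_
    apply Finset.sum_le_sum
    intro k _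
    rw [Set.ncard_eq_toFinset_card _ (hfin k)]
  have h7 : ((A ∩ Set.Icc 1 N).ncard : ℝ) * g N ≤ c' / 2 * sqrt N := by
    calc ((A ∩ Set.Icc 1 N).ncard : ℝ) * g N
        ≤ (∑ α ∈ F, ((A ∩ Near α ∩ Set.Iic N).ncard : ℝ)) * g N := by
          apply mul_le_mul_of_nonneg_right _ h4.le
          exact_mod_cast h6
      _ = ∑ α ∈ F, ((A ∩ Near α ∩ Set.Iic N).ncard : ℝ) * g N := by rw [Finset.sum_mul]
      _ ≤ ∑ α ∈ F, c' / (2 * (F.card + 1)) * sqrt N := Finset.sum_le_sum fun α hα => h3 α hα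
      _ = (F.card : ℝ) / (F.card + 1) * (c' / 2 * sqrt N) := by
          rw [Finset.sum_const, nsmul_eq_mul]
          field_simp
      _ ≤ 1 * (c' / 2 * sqrt N) := by
          refine mul_le_mul_of_nonneg_right ?_ (by positivity)
          rw [div_le_one (by positivity)]
          linarith
      _ = c' / 2 * sqrt N := one_mul _
  rw [div_le_iff₀ h4] at h2
  have h8 : 0 < sqrt (N : ℝ) := sqrt_pos.2 (by exact_mod_cast h5)
  nlinarith

/-- part 3 -/
lemma forces_of_avoids {Λ : Set ℝ} (hΛ : Λ.Countable) (hpos : ∀ α ∈ Λ, 0 < α) {g : ℕ → ℝ}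
    (hg : ∀ᶠ N : ℕ in atTop, 0 < g N) {c : ℝ} (hc : c < 1 / 100)
    (hgc : ∀ᶠ N : ℕ in atTop, g N ≤ exp (c * sqrt (psi N))) (h : ForcesIn (Avoids Λ) g) :
    ForcesIn (fun _ => True) g := by
  rintro A - ⟨C, hC, hA⟩ K
  by_contra hcon
  push Not at hcon
  rcases Λ.eq_empty_or_nonempty with rfl | hne
  · obtain ⟨n, hn⟩ := h A (fun α hα => absurd hα (Set.notMem_empty α)) ⟨C, hC, hA⟩ K
    have := hcon n
    omega
  obtain ⟨f, rfl⟩ := hΛ.exists_eq_range hne
  obtain ⟨B, hBA, hB, -, hAB⟩ := reduction hg (fun k => Near (f k)) (A := A)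
    (fun k ε hε => rare (small_of_bounded hcon) (hpos _ (Set.mem_range_self k)) hc hgc hε)
    (c := 1 / (2 * C)) (by positivity)
  obtain ⟨n, hn⟩ := h B (by rintro α ⟨k, rfl⟩; exact hB k) ⟨2 * C, by positivity, by
    filter_upwards [hA, hAB, hg] with N h1 h2 h3
    have h4 := count_split A B N
    have h5 : 1 / (2 * C) * sqrt N / g N = (sqrt N / g N) / (2 * C) := by ring
    rw [h5, le_div_iff₀ (by positivity)] at h2
    nlinarith⟩ K
  have := rep_mono hBA n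
  have := hcon n
  omega

lemma forces_anti {𝒞 : Set ℕ → Prop} {g g' : ℕ → ℝ} (h : ForcesIn 𝒞 g)
    (hg' : ∀ᶠ N : ℕ in atTop, 0 < g' N) (hle : ∀ N, g' N ≤ g N) : ForcesIn 𝒞 g' := by
  rintro A hA ⟨C, hC, hN⟩ K
  refine h A hA ⟨C, hC, ?_⟩ K
  filter_upwards [hN, hg'] with N h1 h2
  exact (div_le_div_of_nonneg_left (sqrt_nonneg _) h2 (hle N)).trans h1

/-- **Density thresholds and the neighbourhoods of the squares.** -/
theorem result :
    -- 1. few elements near the squares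
    (∀ A : Set ℕ, (∀ᶠ s : ℕ in atTop, (rep A s : ℝ) < exp (1 / 100 * sqrt (psi s))) →
      ∀ α : ℝ, 0 < α → ∀ᶠ x : ℕ in atTop,
        ((A ∩ Near α ∩ Set.Iic x).ncard : ℝ) < sqrt x * exp (-(1 / 100 * sqrt (psi x)))) ∧
    -- 2. thresholds inside finite unions of neighbourhoods of squares
    (∀ F : Finset ℝ, (∀ α ∈ F, 0 < α) → ∀ g : ℕ → ℝ, (∀ᶠ N : ℕ in atTop, 0 < g N) →
      ∀ c : ℝ, c < 1 / 100 → (∀ᶠ N : ℕ in atTop, g N ≤ exp (c * sqrt (psi N))) →
      ∀ A : Set ℕ, A ⊆ ⋃ α ∈ F, Near α →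
        (∃ c' : ℝ, 0 < c' ∧ ∃ᶠ N : ℕ in atTop,
          c' * sqrt N / g N ≤ ((A ∩ Set.Icc 1 N).ncard : ℝ)) →
        ∃ᶠ s : ℕ in atTop, exp (1 / 100 * sqrt (psi s)) ≤ rep A s) ∧
    -- 3. only sets which avoid the neighbourhoods matter
    (∀ Λ : Set ℝ, Λ.Countable → (∀ α ∈ Λ, 0 < α) → ∀ g : ℕ → ℝ, (∀ᶠ N : ℕ in atTop, 0 < g N) →
      ∀ c : ℝ, c < 1 / 100 → (∀ᶠ N : ℕ in atTop, g N ≤ exp (c * sqrt (psi N))) →
      (ForcesIn (fun _ => True) g ↔ ForcesIn (Avoids Λ) g)) ∧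
    -- 4. the question
    (∀ Λ : Set ℝ, Λ.Countable → (∀ α ∈ Λ, 0 < α) →
      ((∃ g : ℕ → ℝ, Tendsto g atTop atTop ∧ ForcesIn (fun _ => True) g) ↔
        ∃ g : ℕ → ℝ, Tendsto g atTop atTop ∧ ForcesIn (Avoids Λ) g)) := by
  refine ⟨fun A hA α hα => few_near hA hα, ?_, ?_, ?_⟩
  · rintro F hF g hg c hc hgc A hA ⟨c', hc', hN⟩
    exact inside hF hg hc hgc hA hc' hN
  · intro Λ hΛ hpos g hg c hc hgc
    exact ⟨fun h A _ hA => h A trivial hA, fun h => forces_of_avoids hΛ hpos hg hc hgc h⟩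
  · intro Λ hΛ hpos
    constructor
    · rintro ⟨g, hg, h⟩
      exact ⟨g, hg, fun A _ hA => h A trivial hA⟩
    · rintro ⟨g, hg, h⟩
      set g' : ℕ → ℝ := fun N => min (g N) (exp (1 / 200 * sqrt (psi N))) with hg'
      have h1 : Tendsto (fun x : ℕ => exp (1 / 200 * sqrt (psi x))) atTop atTop :=
        tendsto_exp_atTop.comp (tendsto_sqrt_psi.const_mul_atTop (by norm_num))
      have h2 : Tendsto g' atTop atTop := by
        rw [tendsto_atTop] at hg h1 ⊢
        intro b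
        filter_upwards [hg b, h1 b] with N h3 h4
        exact le_min h3 h4
      have h3 : ∀ᶠ N : ℕ in atTop, 0 < g' N := h2.eventually_gt_atTop 0
      refine ⟨g', h2, forces_of_avoids hΛ hpos h3 (c := 1 / 200) (by norm_num)
        (Eventually.of_forall fun N => min_le_right _ _) ?_⟩
      exact forces_anti h h3 fun N => min_le_left _ _

end Pool.Agent.Results.MP_491344_nt.NearSquareThresholds
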