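import Pool.Agent.Q54.ThinSet
import Pool.Agent.Results.MP_12a1af_nt.SetCircuits

/-!
# MP_491344_nt: the exact exponent of the thresholds for sets given by computations with sets

`rep A n` is the number of ordered pairs of elements of `A` with sum `n`. A computation of length `S`
(`ComputedIn S G` for the computed set `G`) is a sequence of `S` finite sets of integers, each of
which is a singleton or the union, the sum set or the difference set of two earlier ones; neither the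
unions need be disjoint nor the sums direct. `CoveredBy A K S N`: the elements of `A` up to `N` lie in
the union of `K` subsets of `A`, each computed in `S` steps. A set `A` is `Simple κ` if for every
`δ > 0` and all large `N` this is possible with `K ≤ N ^ (κ + δ)` and `S ≤ N ^ δ`.

1. If `rep A n ≤ r` for all `n` and `CoveredBy A K S N`, then
   `|A ∩ [1, N]| ≤ K (4 S r²) ^ (4 log₂ r)`.
2. Let `0 ≤ κ < 1/2`. If `A` is `Simple κ` and `|A ∩ [1, N]| ≥ c N ^ (1/2 - β)` for infinitely many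
   `N`, where `c > 0` and `β < 1/2 - κ`, then `rep A` is unbounded.
3. For `0 ≤ κ < 1/2` and every real `β` the function `g(N) = N ^ β` forces unbounded
   representations inside the class of the sets which are `Simple κ` if and only if
   `β < 1/2 - κ`.

For example, for `κ = 0` (sets which are covered by `N ^ o(1)` subsets with computations of length
`N ^ o(1)`) all `g(N) = N ^ β` with `β < 1/2` force unbounded representations. For the converse in 3 (`κ > 0`) a random set with bounded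
representation function and `N ^ (κ + o(1))` elements up to `N` is used.
-/

set_option autoImplicit false

namespace Pool.Agent.Results.MP_491344_nt.SetComputations

open Filter Finset Pool.Agent.Results.MP_12a1af_nt.SetCircuits

/-- The number of ordered pairs of elements of `A` with sum `n`. -/
noncomputable def rep (A : Set ℕ) (n : ℕ) : ℕ :=
  {p : ℕ × ℕ | p.1 ∈ A ∧ p.2 ∈ A ∧ p.1 + p.2 = n}.ncard

/-- `|A ∩ [1, N]| ≫ √N / g(N)` -/
def Dense (g : ℕ → ℝ) (A : Set ℕ) : Prop :=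
  ∃ C : ℝ, 0 < C ∧ ∀ᶠ N : ℕ in atTop, Real.sqrt N / g N ≤ C * ((A ∩ Set.Icc 1 N).ncard : ℝ)

/-- `g` forces unbounded representations inside the class `𝒞` -/
def ForcesIn (𝒞 : Set ℕ → Prop) (g : ℕ → ℝ) : Prop :=
  ∀ A : Set ℕ, 𝒞 A → Dense g A → ∀ K : ℕ, ∃ n, K < rep A n

/-- the elements of `A` up to `N` lie in the union of `K` subsets of `A`, each of them computed in
`S` steps -/
def CoveredBy (A : Set ℕ) (K S N : ℕ) : Prop :=
  ∃ G : Fin K → Finset ℤ, (∀ k, ComputedIn S (G k)) ∧ (∀ k, ∀ x ∈ G k, ∃ a ∈ A, (a : ℤ) = x) ∧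
    ∀ a ∈ A, a ≤ N → ∃ k, (a : ℤ) ∈ G k

/-- `N ^ (κ + o(1))` subsets of `A` with computations of length `N ^ o(1)` suffice -/
def Simple (κ : ℝ) (A : Set ℕ) : Prop :=
  ∀ δ : ℝ, 0 < δ → ∀ᶠ N : ℕ in atTop, ∃ K S : ℕ, (K : ℝ) ≤ (N : ℝ) ^ (κ + δ) ∧
    (S : ℝ) ≤ (N : ℝ) ^ δ ∧ CoveredBy A K S N

/-- part 1 -/
lemma count_le {A : Set ℕ} {r : ℕ} (hr : ∀ n, rep A n ≤ r) {K S N : ℕ} (h : CoveredBy A K S N) :
    (A ∩ Set.Icc 1 N).ncard ≤ K * (4 * S * r ^ 2) ^ (4 * Nat.log 2 r) := by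
  classical
  obtain ⟨G, hG, hGA, hcov⟩ := h
  have hfin : (A ∩ Set.Icc 1 N).Finite := (Set.finite_Icc 1 N).subset Set.inter_subset_right
  have h1 : (hfin.toFinset.image (fun a : ℕ => (a : ℤ))) ⊆ (univ : Finset (Fin K)).biUnion G := by
    intro x hx
    rw [Finset.mem_image] at hx
    obtain ⟨a, ha, rfl⟩ := hx
    rw [Set.Finite.mem_toFinset] at ha
    obtain ⟨k, hk⟩ := hcov a ha.1 ha.2.2
    exact Finset.mem_biUnion.2 ⟨k, Finset.mem_univ k, hk⟩
  have h2 := Finset.card_le_card h1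
  rw [Finset.card_image_of_injective _ (fun a b h => by exact_mod_cast h),
    ← Set.ncard_eq_toFinset_card _ hfin] at h2
  refine h2.trans (Finset.card_biUnion_le.trans ?_)
  refine le_trans (Finset.sum_le_card_nsmul _ _ ((4 * S * r ^ 2) ^ (4 * Nat.log 2 r)) ?_) ?_
  · intro k _
    exact subset_card_le hr (hG k) (hGA k)
  · simp

/-- part 2 -/
lemma unbounded_of_dense {κ β : ℝ} (hβ : β < 1 / 2 - κ) {A : Set ℕ} (hA : Simple κ A) {c : ℝ}
    (hc : 0 < c)
    (h : ∃ᶠ N : ℕ in atTop, c * (N : ℝ) ^ (1 / 2 - β) ≤ ((A ∩ Set.Icc 1 N).ncard : ℝ)) (r : ℕ) :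
    ∃ n, r < rep A n := by
  by_contra hcon
  push Not at hcon
  set e : ℕ := 4 * Nat.log 2 r with he
  set γ : ℝ := 1 / 2 - β - κ with hγ
  have hγ0 : 0 < γ := by rw [hγ]; linarith
  set δ : ℝ := γ / (2 * ((e : ℝ) + 1)) with hδ
  have hδ0 : 0 < δ := by positivity
  set B : ℝ := (4 * (r : ℝ) ^ 2) ^ e with hB
  have hB0 : 0 ≤ B := by positivity
  have hbig : ∀ᶠ N : ℕ in atTop, (B + 1) / c < (N : ℝ) ^ (γ / 2) :=
    ((tendsto_rpow_atTop (by positivity)).comp tendsto_natCast_atTop_atTop).eventually_gt_atTop _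
  obtain ⟨N, h1, ⟨K, S, hK, hS, hcov⟩, h2, h3⟩ :=
    (h.and_eventually ((hA δ hδ0).and (hbig.and (eventually_ge_atTop 1)))).exists
  have hN0 : (0 : ℝ) < N := by exact_mod_cast h3
  have h4 : ((A ∩ Set.Icc 1 N).ncard : ℝ) ≤ K * (4 * S * (r : ℝ) ^ 2) ^ e := by
    have := count_le hcon hcov
    exact_mod_cast this
  have h5 : (K : ℝ) * (4 * S * (r : ℝ) ^ 2) ^ e ≤ B * (N : ℝ) ^ (κ + γ / 2) := by
    calc (K : ℝ) * (4 * S * (r : ℝ) ^ 2) ^ e = K * (S : ℝ) ^ e * B := by
          rw [hB, show (4 * (S : ℝ) * (r : ℝ) ^ 2) = S * (4 * (r : ℝ) ^ 2) by ring, mul_pow,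
            mul_assoc]
      _ ≤ (N : ℝ) ^ (κ + δ) * ((N : ℝ) ^ δ) ^ e * B := by
          gcongr
      _ = B * (N : ℝ) ^ (κ + γ / 2) := by
          rw [← Real.rpow_natCast ((N : ℝ) ^ δ), ← Real.rpow_mul hN0.le, ← Real.rpow_add hN0,
            mul_comm]
          congr 2
          rw [hδ]
          field_simp
          ring
  have h6 : c * (N : ℝ) ^ (1 / 2 - β) = c * (N : ℝ) ^ (γ / 2) * (N : ℝ) ^ (κ + γ / 2) := by
    rw [mul_assoc, ← Real.rpow_add hN0]
    congr 2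
    rw [hγ]
    ring
  have h7 : 0 < (N : ℝ) ^ (κ + γ / 2) := Real.rpow_pos_of_pos hN0 _
  rw [div_lt_iff₀ hc] at h2
  nlinarith

lemma covered_trivial (A : Set ℕ) (N : ℕ) :
    CoveredBy A (A ∩ Set.Iic N).ncard 1 N := by
  classical
  have hfin : (A ∩ Set.Iic N).Finite := (Set.finite_Iic N).subset Set.inter_subset_right
  have hc : (A ∩ Set.Iic N).ncard = hfin.toFinset.card := Set.ncard_eq_toFinset_card _ hfin
  rw [hc]
  refine ⟨fun k => {((hfin.toFinset.equivFin.symm k : ℕ) : ℤ)}, fun k => ?_, fun k x hx => ?_,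
    fun a ha haN => ?_⟩
  · exact ⟨fun _ => {((hfin.toFinset.equivFin.symm k : ℕ) : ℤ)},
      fun i _ => Or.inl ⟨_, rfl⟩, 0, by norm_num, rfl⟩
  · rw [Finset.mem_singleton] at hx
    have := (hfin.toFinset.equivFin.symm k).2
    rw [Set.Finite.mem_toFinset] at this
    exact ⟨_, this.1, hx.symm⟩
  · have ha' : a ∈ hfin.toFinset := (Set.Finite.mem_toFinset _).2 ⟨ha, haN⟩
    refine ⟨hfin.toFinset.equivFin ⟨a, ha'⟩, ?_⟩
    rw [Finset.mem_singleton, Equiv.symm_apply_apply]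

lemma iic_le (A : Set ℕ) (N : ℕ) : (A ∩ Set.Iic N).ncard ≤ (A ∩ Set.Icc 1 N).ncard + 1 := by
  have h : A ∩ Set.Iic N ⊆ insert 0 (A ∩ Set.Icc 1 N) := by
    rintro a ⟨h1, h2⟩
    rcases Nat.eq_zero_or_pos a with h | h
    · left; exact h
    · right; exact ⟨h1, h, h2⟩
  have hfin : (A ∩ Set.Icc 1 N).Finite := (Set.finite_Icc 1 N).subset Set.inter_subset_right
  exact (Set.ncard_le_ncard h (hfin.insert 0)).trans (Set.ncard_insert_le _ _)

/-- sets with few elements are simple -/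
lemma simple_of_few {A : Set ℕ} {κ : ℝ} (h0 : 0 ≤ κ) (h : ∀ δ : ℝ, 0 < δ → ∀ᶠ N : ℕ in atTop,
    ((A ∩ Set.Icc 1 N).ncard : ℝ) ≤ (N : ℝ) ^ (κ + δ)) : Simple κ A := by
  intro δ hδ
  have hbig : ∀ᶠ N : ℕ in atTop, (2 : ℝ) ≤ (N : ℝ) ^ (δ / 2) :=
    ((tendsto_rpow_atTop (by positivity)).comp tendsto_natCast_atTop_atTop).eventually_ge_atTop _
  filter_upwards [h (δ / 2) (by positivity), hbig, eventually_ge_atTop 1] with N h1 h2 h3
  have hN1 : (1 : ℝ) ≤ N := by exact_mod_cast h3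
  refine ⟨(A ∩ Set.Iic N).ncard, 1, ?_, ?_, covered_trivial A N⟩
  · have h4 : ((A ∩ Set.Iic N).ncard : ℝ) ≤ ((A ∩ Set.Icc 1 N).ncard : ℝ) + 1 := by
      exact_mod_cast iic_le A N
    have h5 : (1 : ℝ) ≤ (N : ℝ) ^ (κ + δ / 2) := Real.one_le_rpow hN1 (by positivity)
    calc ((A ∩ Set.Iic N).ncard : ℝ) ≤ 2 * (N : ℝ) ^ (κ + δ / 2) := by linarith
      _ ≤ (N : ℝ) ^ (δ / 2) * (N : ℝ) ^ (κ + δ / 2) :=
          mul_le_mul_of_nonneg_right h2 (by positivity)
      _ = (N : ℝ) ^ (κ + δ) := by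
          rw [← Real.rpow_add (by linarith)]
          congr 1
          ring
  · push_cast
    exact Real.one_le_rpow hN1 hδ.le

/-- simple sets with a bounded representation function -/
lemma exists_bounded {κ : ℝ} (h0 : 0 ≤ κ) (h1 : κ < 1 / 2) :
    ∃ (A : Set ℕ) (R : ℕ), Simple κ A ∧ (∀ n, rep A n ≤ R) ∧
      ∀ᶠ N : ℕ in atTop, (N : ℝ) ^ κ ≤ 4 * ((A ∩ Set.Icc 1 N).ncard : ℝ) := by
  rcases h0.eq_or_lt with rfl | h0'
  · refine ⟨{1}, 1, ?_, ?_, ?_⟩
    · refine simple_of_few le_rfl fun δ hδ => ?_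
      filter_upwards [eventually_ge_atTop 1] with N hN
      have h2 : ((({1} : Set ℕ) ∩ Set.Icc 1 N).ncard : ℝ) ≤ 1 := by
        have : (({1} : Set ℕ) ∩ Set.Icc 1 N).ncard ≤ ({1} : Set ℕ).ncard :=
          Set.ncard_le_ncard Set.inter_subset_left (Set.finite_singleton _)
        rw [Set.ncard_singleton] at this
        exact_mod_cast this
      refine h2.trans (Real.one_le_rpow (by exact_mod_cast hN) (by linarith))
    · intro n
      have : {p : ℕ × ℕ | p.1 ∈ ({1} : Set ℕ) ∧ p.2 ∈ ({1} : Set ℕ) ∧ p.1 + p.2 = n} ⊆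
          {((1 : ℕ), (1 : ℕ))} := by
        rintro ⟨x, y⟩ ⟨hx, hy, -⟩
        rw [Set.mem_singleton_iff] at hx hy ⊢
        exact Prod.ext hx hy
      have h2 := Set.ncard_le_ncard this (Set.finite_singleton _)
      rw [Set.ncard_singleton] at h2
      exact h2
    · filter_upwards [eventually_ge_atTop 1] with N hN
      have : ({1} : Set ℕ) ∩ Set.Icc 1 N = {1} := by
        ext x
        simp only [Set.mem_inter_iff, Set.mem_singleton_iff, Set.mem_Icc]
        omega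
      rw [this, Set.ncard_singleton, Real.rpow_zero]
      norm_num
  · obtain ⟨A, R, h2, h3, h4⟩ := Pool.Agent.Q54.ThinSet.exists_exact h0' h1
    exact ⟨A, R, simple_of_few h0 h4, h2, h3⟩

/-- **The exact exponent for sets given by computations with sets.** -/
theorem result :
    -- 1. the inequality
    (∀ (A : Set ℕ) (r K S N : ℕ), (∀ n, rep A n ≤ r) → CoveredBy A K S N →
      (A ∩ Set.Icc 1 N).ncard ≤ K * (4 * S * r ^ 2) ^ (4 * Nat.log 2 r)) ∧
    -- 2. many elements for infinitely many `N` suffice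
    (∀ κ β : ℝ, β < 1 / 2 - κ → ∀ A : Set ℕ, Simple κ A →
      (∃ c : ℝ, 0 < c ∧ ∃ᶠ N : ℕ in atTop,
        c * (N : ℝ) ^ (1 / 2 - β) ≤ ((A ∩ Set.Icc 1 N).ncard : ℝ)) →
      ∀ r : ℕ, ∃ n, r < rep A n) ∧
    -- 3. the exact exponent
    (∀ κ : ℝ, 0 ≤ κ → κ < 1 / 2 → ∀ β : ℝ,
      (ForcesIn (Simple κ) (fun N => (N : ℝ) ^ β) ↔ β < 1 / 2 - κ)) := by
  refine ⟨fun A r K S N hr h => count_le hr h, ?_, ?_⟩
  · rintro κ β hβ A hA ⟨c, hc, h⟩ r
    exact unbounded_of_dense hβ hA hc h r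
  · intro κ h0 h1 β
    constructor
    · intro h
      by_contra hβ
      rw [not_lt] at hβ
      obtain ⟨A, R, hA, hR, hN⟩ := exists_bounded h0 h1
      have hd : Dense (fun N => (N : ℝ) ^ β) A := by
        refine ⟨4, by norm_num, ?_⟩
        filter_upwards [hN, eventually_ge_atTop 1] with N h2 h3
        have hN1 : (1 : ℝ) ≤ N := by exact_mod_cast h3
        refine le_trans ?_ h2
        rw [Real.sqrt_eq_rpow, ← Real.rpow_sub (by linarith)]
        exact Real.rpow_le_rpow_of_exponent_le hN1 (by linarith)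
      obtain ⟨n, hn⟩ := h A hA hd R
      exact absurd (hR n) (by omega)
    · rintro hβ A hA ⟨C, hC, hN⟩ r
      refine unbounded_of_dense hβ hA (c := 1 / C) (by positivity) (Eventually.frequently ?_) r
      filter_upwards [hN, eventually_ge_atTop 1] with N h2 h3
      have hN0 : (0 : ℝ) < N := by exact_mod_cast h3
      rw [Real.sqrt_eq_rpow, ← Real.rpow_sub hN0] at h2
      rw [one_div, inv_mul_le_iff₀ hC]
      exact h2

end Pool.Agent.Results.MP_491344_nt.SetComputations
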